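import Mathlib

/-!
Approximation of `t ^ s` from below by sums of functions `log⁺ (t / ρ)`.
-/

set_option autoImplicit false

namespace Pool.Agent.W688.RR

/-- `log⁺ (t / ρ)` -/
noncomputable def lp (t ρ : ℝ) : ℝ := Real.log (max t ρ) - Real.log ρ

/-- sums of such functions -/
noncomputable def HH (l : List (ℝ × ℝ)) (t : ℝ) : ℝ := (l.map (fun p => p.1 * lp t p.2)).sum

lemma lp_nonneg {t ρ : ℝ} (h : 0 < ρ) : 0 ≤ lp t ρ := by
  unfold lp
  have := Real.log_le_log h (le_max_right t ρ)
  linarith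

lemma lp_of_le {t ρ : ℝ} (h : t ≤ ρ) : lp t ρ = 0 := by
  unfold lp
  rw [max_eq_right h, sub_self]

lemma lp_of_ge {t ρ : ℝ} (h : ρ ≤ t) : lp t ρ = Real.log t - Real.log ρ := by
  unfold lp
  rw [max_eq_left h]

lemma HH_nil (t : ℝ) : HH [] t = 0 := by simp [HH]

lemma HH_cons (a k : ℝ) (l : List (ℝ × ℝ)) (t : ℝ) : HH ((a, k) :: l) t = a * lp t k + HH l t := by
  simp [HH]

/-- strict tangent inequality -/
lemma tan_lt {s v t : ℝ} (hs : 0 < s) (hv : 0 < v) (ht : 0 < t) (h : t ≠ v) :
    s * v ^ s * Real.log t + v ^ s * (1 - s * Real.log v) < t ^ s := by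
  have h1 : s * (Real.log t - Real.log v) ≠ 0 := by
    apply mul_ne_zero hs.ne'
    intro h0
    exact h (Real.log_injOn_pos (Set.mem_Ioi.2 ht) (Set.mem_Ioi.2 hv) (by linarith))
  have h2 := Real.add_one_lt_exp h1
  have h3 : t ^ s = v ^ s * Real.exp (s * (Real.log t - Real.log v)) := by
    rw [Real.rpow_def_of_pos ht, Real.rpow_def_of_pos hv, ← Real.exp_add]
    congr 1; ring
  have h4 : 0 < v ^ s := Real.rpow_pos_of_pos hv s
  rw [h3]
  nlinarith

lemma tan_eq {s v : ℝ} : s * v ^ s * Real.log v + v ^ s * (1 - s * Real.log v) = v ^ s := by ring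

lemma tan_le {s v t : ℝ} (hs : 0 < s) (hv : 0 < v) (ht : 0 < t) :
    s * v ^ s * Real.log t + v ^ s * (1 - s * Real.log v) ≤ t ^ s := by
  by_cases h : t = v
  · rw [h, tan_eq]
  · exact (tan_lt hs hv ht h).le

/-- one step: a line `a log t + b` and the tangent at `v'` -/
lemma step {s a b v v' : ℝ} (hs : 0 < s) (hv : 0 < v) (hvv : v < v') (ha : a = s * v ^ s)
    (hb : b = v ^ s * (1 - s * Real.log v)) :
    ∃ κ : ℝ, v < κ ∧ κ < v' ∧ 0 < s * v' ^ s - a ∧
      a * Real.log κ + b = s * v' ^ s * Real.log κ + v' ^ s * (1 - s * Real.log v') := by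
  have hv' : 0 < v' := hv.trans hvv
  set a' := s * v' ^ s with ha'
  set b' := v' ^ s * (1 - s * Real.log v') with hb'
  have hpos : 0 < a' - a := by
    rw [ha, ha', ← mul_sub]
    apply mul_pos hs
    have := Real.rpow_lt_rpow hv.le hvv hs
    linarith
  refine ⟨Real.exp ((b - b') / (a' - a)), ?_, ?_, hpos, ?_⟩
  · rw [← Real.log_lt_iff_lt_exp hv, lt_div_iff₀ hpos]
    have h1 := tan_lt hs hv' hv hvv.ne
    rw [← ha', ← hb'] at h1
    have h2 : a * Real.log v + b = v ^ s := by rw [ha, hb]; ring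
    linarith
  · rw [← Real.lt_log_iff_exp_lt hv', div_lt_iff₀ hpos]
    have h1 := tan_lt hs hv hv' hvv.ne'
    rw [← ha, ← hb] at h1
    have h2 : a' * Real.log v' + b' = v' ^ s := by rw [ha', hb']; ring
    linarith
  · rw [Real.log_exp]
    have : (a' - a) * ((b - b') / (a' - a)) = b - b' := by field_simp
    linarith

/-- the inductive statement -/
def Pd (s : ℝ) (D : Finset ℝ) : Prop := D = ∅ ∨ ∃ (l : List (ℝ × ℝ)) (v κ : ℝ), v ∈ D ∧ 0 < v ∧
  (∀ d ∈ D, d ≤ v) ∧ 0 < κ ∧ κ < v ∧ (∀ p ∈ l, 0 < p.1 ∧ 0 < p.2 ∧ p.2 ≤ κ ∧ p.2 ∉ D) ∧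
  (∀ t, κ ≤ t → HH l t = s * v ^ s * Real.log t + v ^ s * (1 - s * Real.log v)) ∧
  (∀ t, 0 ≤ t → HH l t ≤ t ^ s) ∧ ∀ t ∈ D, HH l t = t ^ s

lemma pd_all (s : ℝ) (hs : 0 < s) (D : Finset ℝ) : (∀ t ∈ D, 0 < t) → Pd s D := by
  induction D using Finset.induction_on_max with
  | empty => intro _; exact Or.inl rfl
  | insert v' D hmax ih =>
    intro hD
    have hv' : 0 < v' := hD v' (Finset.mem_insert_self _ _)
    right
    rcases ih (fun t ht => hD t (Finset.mem_insert_of_mem ht)) with h0 | ⟨l, v, κ, hvD, hv, hdv, hκ, hκv, hl, hH, hle, heq⟩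
    · subst h0
      set a' := s * v' ^ s with ha'
      have ha'pos : 0 < a' := mul_pos hs (Real.rpow_pos_of_pos hv' s)
      set κ' := v' * Real.exp (-(1 / s)) with hκ'
      have hκ'pos : 0 < κ' := by positivity
      have hκ'v : κ' < v' := by
        rw [hκ']
        have : Real.exp (-(1 / s)) < 1 := by
          rw [Real.exp_lt_one_iff]
          have : 0 < 1 / s := by positivity
          linarith
        nlinarith
      have hlogκ : Real.log κ' = Real.log v' - 1 / s := by
        rw [hκ', Real.log_mul hv'.ne' (Real.exp_pos _).ne', Real.log_exp]; ring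
      have hline : ∀ t, κ' ≤ t → HH [(a', κ')] t = a' * Real.log t + v' ^ s * (1 - s * Real.log v') := by
        intro t ht
        rw [HH_cons, HH_nil, lp_of_ge ht, hlogκ, ha']
        field_simp
        ring
      refine ⟨[(a', κ')], v', κ', Finset.mem_insert_self _ _, hv', ?_, hκ'pos, hκ'v, ?_, hline, ?_, ?_⟩
      · intro d hd
        simp at hd
        exact hd.le
      · intro p hp
        simp only [List.mem_singleton] at hp
        subst hp
        refine ⟨ha'pos, hκ'pos, le_rfl, ?_⟩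
        simp
        exact hκ'v.ne
      · intro t ht
        rcases le_total κ' t with h | h
        · rw [hline t h]
          exact tan_le hs hv' (hκ'pos.trans_le h)
        · rw [HH_cons, HH_nil, lp_of_le h, mul_zero, zero_add]
          exact Real.rpow_nonneg ht s
      · intro t ht
        simp at ht
        subst ht
        rw [hline _ hκ'v.le]
        ring
    · have hvv : v < v' := hmax v hvD
      obtain ⟨κ', hk1, hk2, hk3, hk4⟩ := step (s := s) (a := s * v ^ s)
        (b := v ^ s * (1 - s * Real.log v)) hs hv hvv rfl rfl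
      have hκ'pos : 0 < κ' := hv.trans hk1
      have hline : ∀ t, κ' ≤ t → HH ((s * v' ^ s - s * v ^ s, κ') :: l) t =
          s * v' ^ s * Real.log t + v' ^ s * (1 - s * Real.log v') := by
        intro t ht
        rw [HH_cons, lp_of_ge ht, hH t (by linarith)]
        linear_combination hk4
      refine ⟨(s * v' ^ s - s * v ^ s, κ') :: l, v', κ', Finset.mem_insert_self _ _, hv', ?_,
        hκ'pos, hk2, ?_, hline, ?_, ?_⟩
      · intro d hd
        rcases Finset.mem_insert.1 hd with rfl | hd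
        · exact le_rfl
        · exact (hmax d hd).le
      · intro p hp
        rcases List.mem_cons.1 hp with rfl | hp
        · refine ⟨hk3, hκ'pos, le_rfl, ?_⟩
          intro hmem
          rcases Finset.mem_insert.1 hmem with h | h
          · exact hk2.ne h
          · have := hdv _ h
            simp only at this
            linarith
        · obtain ⟨p1, p2, p3, p4⟩ := hl p hp
          refine ⟨p1, p2, by linarith, ?_⟩
          intro hmem
          rcases Finset.mem_insert.1 hmem with h | h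
          · rw [h] at p3; linarith
          · exact p4 h
      · intro t ht
        rcases le_total κ' t with h | h
        · rw [hline t h]
          exact tan_le hs hv' (hκ'pos.trans_le h)
        · rw [HH_cons, lp_of_le h, mul_zero, zero_add]
          exact hle t ht
      · intro t ht
        rcases Finset.mem_insert.1 ht with rfl | ht
        · rw [hline _ hk2.le]
          ring
        · rw [HH_cons, lp_of_le ((hdv t ht).trans hk1.le), mul_zero, zero_add]
          exact heq t ht

/-- exact interpolation of `t ^ s` on a finite set -/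
theorem log_approx (s : ℝ) (hs : 0 < s) (D : Finset ℝ) (hD : ∀ t ∈ D, 0 < t) :
    ∃ l : List (ℝ × ℝ), (∀ p ∈ l, 0 < p.1 ∧ 0 < p.2 ∧ p.2 ∉ D) ∧
      (∀ t, 0 ≤ t → HH l t ≤ t ^ s) ∧ ∀ t ∈ D, HH l t = t ^ s := by
  rcases pd_all s hs D hD with h | ⟨l, v, κ, _, _, _, _, _, hl, _, hle, heq⟩
  · refine ⟨[], by simp, ?_, ?_⟩
    · intro t ht
      rw [HH_nil]
      exact Real.rpow_nonneg ht s
    · intro t ht
      rw [h] at ht
      simp at ht
  · exact ⟨l, fun p hp => ⟨(hl p hp).1, (hl p hp).2.1, (hl p hp).2.2.2⟩, hle, heq⟩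

/-- with integer weights -/
noncomputable def HN (l : List (ℕ × ℝ)) (t : ℝ) : ℝ := (l.map (fun p => (p.1 : ℝ) * lp t p.2)).sum

theorem log_approx_nat (s : ℝ) (hs : 0 < s) (D : Finset ℝ) (hD : ∀ t ∈ D, 0 < t) (η : ℝ) (hη : 0 < η) :
    ∃ (N : ℕ) (l : List (ℕ × ℝ)), 0 < N ∧ (∀ p ∈ l, 0 < p.2 ∧ p.2 ∉ D) ∧
      (∀ t, 0 ≤ t → HN l t ≤ N * t ^ s) ∧ ∀ t ∈ D, N * (t ^ s - η) ≤ HN l t := by
  obtain ⟨l, hl, hle, heq⟩ := log_approx s hs D hD
  set B : ℝ := ∑ t ∈ D, (l.map (fun p => lp t p.2)).sum with hB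
  have hBt : ∀ t ∈ D, (l.map (fun p => lp t p.2)).sum ≤ B := by
    intro t ht
    apply Finset.single_le_sum (f := fun t => (l.map (fun p => lp t p.2)).sum) _ ht
    intro t _
    apply List.sum_nonneg
    intro x hx
    obtain ⟨p, hp, rfl⟩ := List.mem_map.1 hx
    exact lp_nonneg (hl p hp).2.1
  obtain ⟨N, hN⟩ := exists_nat_gt (max (B / η) 0)
  have hN0 : 0 < N := by
    have : (0:ℝ) < N := lt_of_le_of_lt (le_max_right _ _) hN
    exact_mod_cast this
  have hNB : B ≤ N * η := by
    have := lt_of_le_of_lt (le_max_left _ _) hN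
    rw [div_lt_iff₀ hη] at this
    exact this.le
  refine ⟨N, l.map (fun p => (⌊(N : ℝ) * p.1⌋₊, p.2)), hN0, ?_, ?_, ?_⟩
  · intro p hp
    obtain ⟨p', hp', rfl⟩ := List.mem_map.1 hp
    exact (hl p' hp').2
  · intro t ht
    refine le_trans ?_ (mul_le_mul_of_nonneg_left (hle t ht) (Nat.cast_nonneg N))
    unfold HN HH
    rw [List.map_map, ← List.sum_map_mul_left]
    apply List.sum_le_sum
    intro p hp
    simp only [Function.comp_apply]
    rw [← mul_assoc]
    apply mul_le_mul_of_nonneg_right _ (lp_nonneg (hl p hp).2.1)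
    exact Nat.floor_le (mul_nonneg (Nat.cast_nonneg N) (hl p hp).1.le)
  · intro t ht
    have h1 : N * HH l t - (l.map (fun p => lp t p.2)).sum ≤
        HN (l.map (fun p => (⌊(N : ℝ) * p.1⌋₊, p.2))) t := by
      unfold HN HH
      rw [List.map_map, ← List.sum_map_mul_left, sub_le_iff_le_add, ← List.sum_map_add]
      apply List.sum_le_sum
      intro p hp
      simp only [Function.comp_apply]
      have h2 : (N : ℝ) * p.1 ≤ ⌊(N : ℝ) * p.1⌋₊ + 1 := (Nat.lt_floor_add_one _).le
      have h3 := lp_nonneg (t := t) (hl p hp).2.1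
      nlinarith
    have h2 := hBt t ht
    rw [heq t ht] at h1
    nlinarith

end Pool.Agent.W688.RR
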