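import Pool.Agent.W784.RR.DefsA
import Pool.Agent.W688.RR_LogApprox

/-!
PA1: roots of `P = ζ` are at least as spread out as roots of unity.
-/

set_option autoImplicit false

namespace Pool.Agent.W688.RR

open Polynomial Filter Topology
open Pool.Agent.W784.RR (csL rootSum)

/-! ### multisets -/

lemma prod_product {α β M : Type*} [CommMonoid M] (S : Multiset α) (T : Multiset β) (f : α × β → M) :
    ((S.product T).map f).prod = (S.map (fun x => (T.map (fun y => f (x, y))).prod)).prod := by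
  unfold Multiset.product
  rw [Multiset.map_bind, Multiset.prod_bind]
  simp only [Multiset.map_map, Function.comp_def]

lemma sum_product' {α β M : Type*} [AddCommMonoid M] (S : Multiset α) (T : Multiset β) (f : α × β → M) :
    ((S.product T).map f).sum = (S.map (fun x => (T.map (fun y => f (x, y))).sum)).sum := by
  unfold Multiset.product
  rw [Multiset.map_bind, Multiset.sum_bind]
  simp only [Multiset.map_map, Function.comp_def]

lemma log_norm_multiset (S : Multiset ℂ) (h : ∀ z ∈ S, z ≠ 0) :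
    Real.log ‖S.prod‖ = (S.map (fun z => Real.log ‖z‖)).sum := by
  induction S using Multiset.induction_on with
  | empty => simp
  | cons a S ih =>
    have ha : a ≠ 0 := h a (Multiset.mem_cons_self a S)
    have hS : ∀ z ∈ S, z ≠ 0 := fun z hz => h z (Multiset.mem_cons_of_mem hz)
    have hp : S.prod ≠ 0 := by
      rw [Ne, Multiset.prod_eq_zero_iff]
      intro h0; exact hS 0 h0 rfl
    rw [Multiset.prod_cons, norm_mul, Real.log_mul (norm_ne_zero_iff.2 ha) (norm_ne_zero_iff.2 hp),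
      ih hS, Multiset.map_cons, Multiset.sum_cons]

lemma log_norm_list {ι : Type*} (l : List ι) (f : ι → ℂ) (h : ∀ i ∈ l, f i ≠ 0) :
    Real.log ‖(l.map f).prod‖ = (l.map (fun i => Real.log ‖f i‖)).sum := by
  induction l with
  | nil => simp
  | cons a l ih =>
    have ha : f a ≠ 0 := h a List.mem_cons_self
    have hS : ∀ i ∈ l, f i ≠ 0 := fun z hz => h z (List.mem_cons_of_mem a hz)
    have hp : (l.map f).prod ≠ 0 := by
      rw [Ne, List.prod_eq_zero_iff, List.mem_map]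
      rintro ⟨i, hi, h0⟩; exact hS i hi h0
    rw [List.map_cons, List.prod_cons, norm_mul, Real.log_mul (norm_ne_zero_iff.2 ha)
      (norm_ne_zero_iff.2 hp), ih hS, List.map_cons, List.sum_cons]

/-! ### the family -/

/-- the polynomials with roots `w z / …` -/
noncomputable def DD (P : ℂ[X]) (w : ℂ) : ℂ[X] := P.scaleRoots w - 1

/-- the same over the polynomial ring -/
noncomputable def BD (P : ℂ[X]) : Polynomial (Polynomial ℂ) := (P.map C).scaleRoots X - 1

variable {P : ℂ[X]}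

lemma deg_one_lt {R : Type*} [CommRing R] [Nontrivial R] {p : Polynomial R} (hL : 1 ≤ p.natDegree) :
    degree (1 : Polynomial R) < degree p := by
  rw [degree_one]
  exact natDegree_pos_iff_degree_pos.1 hL

lemma DD_monic (hP : P.Monic) (hL : 1 ≤ P.natDegree) (w : ℂ) : (DD P w).Monic := by
  unfold DD
  apply Monic.sub_of_left ((monic_scaleRoots_iff w).2 hP)
  apply deg_one_lt
  rw [natDegree_scaleRoots]
  exact hL

lemma DD_natDegree (hL : 1 ≤ P.natDegree) (w : ℂ) : (DD P w).natDegree = P.natDegree := by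
  unfold DD
  rw [natDegree_sub_eq_left_of_natDegree_lt]
  · exact natDegree_scaleRoots P w
  · rw [natDegree_one, natDegree_scaleRoots]; omega

lemma BD_natDegree (hL : 1 ≤ P.natDegree) : (BD P).natDegree = P.natDegree := by
  unfold BD
  have h1 : (P.map C).natDegree = P.natDegree := natDegree_map_eq_of_injective C_injective P
  rw [natDegree_sub_eq_left_of_natDegree_lt]
  · rw [natDegree_scaleRoots, h1]
  · rw [natDegree_one, natDegree_scaleRoots, h1]; omega

lemma BD_map (hP : P.Monic) (w : ℂ) : (BD P).map (evalRingHom w) = DD P w := by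
  unfold BD DD
  rw [Polynomial.map_sub, Polynomial.map_one, map_scaleRoots]
  · rw [Polynomial.map_map]
    have : (evalRingHom w).comp C = RingHom.id ℂ := by ext <;> simp
    rw [this, Polynomial.map_id, coe_evalRingHom, eval_X]
  · rw [(hP.map C).leadingCoeff]
    simp

lemma card_roots_DD (hL : 1 ≤ P.natDegree) (w : ℂ) :
    Multiset.card (DD P w).roots = P.natDegree := by
  rw [← (IsAlgClosed.splits (DD P w)).natDegree_eq_card_roots, DD_natDegree hL]

/-- the differences of the roots -/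
noncomputable def dif (P : ℂ[X]) (w : ℂ) : Multiset ℂ :=
  ((DD P w).roots.product (DD P w).roots).map (fun z => z.1 - z.2)

lemma card_dif (hL : 1 ≤ P.natDegree) (w : ℂ) : Multiset.card (dif P w) = P.natDegree ^ 2 := by
  unfold dif
  rw [Multiset.card_map]
  have := Multiset.card_product (DD P w).roots (DD P w).roots
  rw [card_roots_DD hL] at this
  rw [sq]
  exact this

lemma res_poly (hP : P.Monic) (hL : 1 ≤ P.natDegree) (B : Multiset ℂ) :
    ∃ R : ℂ[X], ∀ w, R.eval w = ((dif P w).map (fun d => (B.map (fun β => d - β)).prod)).prod := by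
  set G : Polynomial (Polynomial ℂ) := (B.map (fun β => (BD P).comp (X - C (C β)))).prod with hG
  refine ⟨resultant (BD P) G P.natDegree G.natDegree, fun w => ?_⟩
  have hmap : G.map (evalRingHom w) = (B.map (fun β => (DD P w).comp (X - C β))).prod := by
    rw [hG, Polynomial.map_multiset_prod, Multiset.map_map]
    congr 1
    apply Multiset.map_congr rfl
    intro β _
    simp only [Function.comp_apply]
    rw [Polynomial.map_comp, BD_map hP]
    simp
  have h1 : (resultant (BD P) G P.natDegree G.natDegree).eval w =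
      resultant (DD P w) (G.map (evalRingHom w)) P.natDegree G.natDegree := by
    rw [← BD_map hP, resultant_map_map, coe_evalRingHom]
  have hsp : (DD P w).Splits := IsAlgClosed.splits _
  have h2 := resultant_eq_prod_eval (DD P w) (G.map (evalRingHom w)) G.natDegree natDegree_map_le hsp
  rw [DD_natDegree hL, (DD_monic hP hL w).leadingCoeff, one_pow, one_mul] at h2
  rw [h1, h2, hmap]
  unfold dif
  rw [Multiset.map_map, prod_product]
  congr 1
  apply Multiset.map_congr rfl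
  intro x _
  rw [eval_multiset_prod, Multiset.map_map]
  simp only [Function.comp_def]
  rw [Multiset.prod_map_prod_map]
  congr 1
  apply Multiset.map_congr rfl
  intro β _
  rw [eval_comp, hsp.eval_eq_prod_roots_of_monic (DD_monic hP hL w)]
  congr 1
  apply Multiset.map_congr rfl
  intro y _
  simp
  ring

lemma res_pow (hP : P.Monic) (hL : 1 ≤ P.natDegree) (m : ℕ) (hm : 1 ≤ m) (c : ℂ) :
    ∃ R : ℂ[X], ∀ w, R.eval w = ((dif P w).map (fun d => d ^ m - c)).prod := by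
  obtain ⟨R, hR⟩ := res_poly hP hL (X ^ m - C c : ℂ[X]).roots
  refine ⟨R, fun w => ?_⟩
  rw [hR]
  congr 1
  apply Multiset.map_congr rfl
  intro d _
  have h := (IsAlgClosed.splits (X ^ m - C c : ℂ[X])).eval_eq_prod_roots_of_monic
    (monic_X_pow_sub_C c (by omega)) d
  rw [← h]
  simp

/-- the product of all factors -/
noncomputable def QQ (P : ℂ[X]) (m : ℕ) (l : List (ℕ × ℝ)) (w : ℂ) : ℂ :=
  (l.map (fun p => ((dif P w).map (fun d => d ^ m - (p.2 : ℂ) ^ m)).prod ^ p.1)).prod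

lemma QQ_poly (hP : P.Monic) (hL : 1 ≤ P.natDegree) (m : ℕ) (hm : 1 ≤ m) (l : List (ℕ × ℝ)) :
    ∃ R : ℂ[X], ∀ w, R.eval w = QQ P m l w := by
  induction l with
  | nil => exact ⟨1, fun w => by simp [QQ]⟩
  | cons p l ih =>
    obtain ⟨R, hR⟩ := ih
    obtain ⟨R', hR'⟩ := res_pow hP hL m hm ((p.2 : ℂ) ^ m)
    refine ⟨R' ^ p.1 * R, fun w => ?_⟩
    rw [eval_mul, eval_pow, hR, hR']
    simp [QQ]

lemma QQ_max (hP : P.Monic) (hL : 1 ≤ P.natDegree) (m : ℕ) (hm : 1 ≤ m) (l : List (ℕ × ℝ)) (ρ₀ : ℝ)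
    (hρ₀ : 0 < ρ₀) : ∃ w : ℂ, ‖w‖ = ρ₀ ∧ ‖QQ P m l 0‖ ≤ ‖QQ P m l w‖ := by
  obtain ⟨R, hR⟩ := QQ_poly hP hL m hm l
  have hd : DiffContOnCl ℂ (fun w => R.eval w) (Metric.ball 0 ρ₀) :=
    (Polynomial.differentiable R).diffContOnCl
  obtain ⟨w, hw, hmax⟩ := Complex.exists_mem_frontier_isMaxOn_norm Metric.isBounded_ball
    ⟨0, Metric.mem_ball_self hρ₀⟩ hd
  refine ⟨w, ?_, ?_⟩
  · rw [frontier_ball _ hρ₀.ne'] at hw
    simpa using hw
  · have h0 : (0 : ℂ) ∈ closure (Metric.ball (0 : ℂ) ρ₀) := subset_closure (Metric.mem_ball_self hρ₀)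
    have := hmax h0
    simp only [Set.mem_ofPred_eq, Function.comp_apply] at this
    rwa [hR, hR] at this

/-! ### logarithms -/

lemma up_bound (m : ℕ) (hm : 1 ≤ m) (d : ℂ) (ρ : ℝ) (hρ : 0 < ρ) (h : d ^ m - (ρ : ℂ) ^ m ≠ 0) :
    Real.log ‖d ^ m - (ρ : ℂ) ^ m‖ ≤ Real.log 2 + m * Real.log (max ‖d‖ ρ) := by
  have hM : 0 < max ‖d‖ ρ := lt_max_of_lt_right hρ
  have h1 : ‖d ^ m - (ρ : ℂ) ^ m‖ ≤ 2 * (max ‖d‖ ρ) ^ m := by
    refine (norm_sub_le _ _).trans ?_
    rw [norm_pow, norm_pow, Complex.norm_real, Real.norm_eq_abs, abs_of_pos hρ]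
    have a1 := pow_le_pow_left₀ (norm_nonneg d) (le_max_left ‖d‖ ρ) m
    have a2 := pow_le_pow_left₀ hρ.le (le_max_right ‖d‖ ρ) m
    linarith
  calc _ ≤ Real.log (2 * (max ‖d‖ ρ) ^ m) := Real.log_le_log (norm_pos_iff.2 h) h1
    _ = _ := by rw [Real.log_mul (by norm_num) (by positivity), Real.log_pow]

/-- the constant in the lower bound -/
noncomputable def kk (t ρ : ℝ) : ℝ := -Real.log (1 - min t ρ / max t ρ)

lemma kk_nonneg {t ρ : ℝ} (ht : 0 ≤ t) (hρ : 0 < ρ) (hne : t ≠ ρ) : 0 ≤ kk t ρ := by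
  unfold kk
  have hM : 0 < max t ρ := lt_max_of_lt_right hρ
  have h1 : min t ρ / max t ρ < 1 := by
    rw [div_lt_one hM]; exact min_lt_max.2 hne
  have h2 : 0 ≤ min t ρ / max t ρ := div_nonneg (le_min ht hρ.le) hM.le
  rw [neg_nonneg]
  exact Real.log_nonpos (by linarith) (by linarith)

lemma low_bound (m : ℕ) (hm : 1 ≤ m) (d : ℂ) (ρ : ℝ) (hρ : 0 < ρ) (h : ‖d‖ ≠ ρ) :
    d ^ m - (ρ : ℂ) ^ m ≠ 0 ∧
    m * Real.log (max ‖d‖ ρ) - kk ‖d‖ ρ ≤ Real.log ‖d ^ m - (ρ : ℂ) ^ m‖ := by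
  have hM : 0 < max ‖d‖ ρ := lt_max_of_lt_right hρ
  set M := max ‖d‖ ρ with hMd
  set μ := min ‖d‖ ρ with hμd
  have hμ0 : 0 ≤ μ := le_min (norm_nonneg _) hρ.le
  have hμM : μ < M := min_lt_max.2 h
  have hr1 : μ / M < 1 := by rw [div_lt_one hM]; exact hμM
  have hr0 : 0 ≤ μ / M := div_nonneg hμ0 hM.le
  have h1 : M ^ m - μ ^ m ≤ ‖d ^ m - (ρ : ℂ) ^ m‖ := by
    have hρn : ‖(ρ : ℂ) ^ m‖ = ρ ^ m := by
      rw [norm_pow, Complex.norm_real, Real.norm_eq_abs, abs_of_pos hρ]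
    rcases le_total ‖d‖ ρ with h2 | h2
    · rw [hMd, hμd, max_eq_right h2, min_eq_left h2, norm_sub_rev]
      have := norm_sub_norm_le ((ρ : ℂ) ^ m) (d ^ m)
      rwa [hρn, norm_pow] at this
    · rw [hMd, hμd, max_eq_left h2, min_eq_right h2]
      have := norm_sub_norm_le (d ^ m) ((ρ : ℂ) ^ m)
      rwa [hρn, norm_pow] at this
  have h2 : M ^ m * (1 - μ / M) ≤ M ^ m - μ ^ m := by
    have h3 : (μ / M) ^ m ≤ μ / M := by
      calc (μ / M) ^ m ≤ (μ / M) ^ 1 := pow_le_pow_of_le_one hr0 hr1.le hm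
        _ = _ := pow_one _
    have h4 : μ ^ m = M ^ m * (μ / M) ^ m := by rw [div_pow]; field_simp
    rw [h4, mul_sub, mul_one]
    have := mul_le_mul_of_nonneg_left h3 (pow_nonneg hM.le m)
    linarith
  have h3 : 0 < M ^ m * (1 - μ / M) := mul_pos (pow_pos hM m) (by linarith)
  refine ⟨?_, ?_⟩
  · intro h0
    rw [h0, norm_zero] at h1
    linarith
  · calc _ = Real.log (M ^ m * (1 - μ / M)) := by
          rw [Real.log_mul (pow_pos hM m).ne' (by linarith), Real.log_pow]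
          unfold kk
          ring
      _ ≤ _ := Real.log_le_log h3 (h2.trans h1)

/-! ### sums -/

/-- sum over the list and the differences -/
noncomputable def SS (P : ℂ[X]) (l : List (ℕ × ℝ)) (F : ℝ → ℝ → ℝ) (w : ℂ) : ℝ :=
  (l.map (fun p => (p.1 : ℝ) * ((dif P w).map (fun d => F ‖d‖ p.2)).sum)).sum

lemma SS_cons (p : ℕ × ℝ) (l : List (ℕ × ℝ)) (F : ℝ → ℝ → ℝ) (w : ℂ) :
    SS P (p :: l) F w = (p.1 : ℝ) * ((dif P w).map (fun d => F ‖d‖ p.2)).sum + SS P l F w := by
  simp [SS]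

lemma QQ_cons (m : ℕ) (p : ℕ × ℝ) (l : List (ℕ × ℝ)) (w : ℂ) :
    QQ P m (p :: l) w = ((dif P w).map (fun d => d ^ m - (p.2 : ℂ) ^ m)).prod ^ p.1 * QQ P m l w := by
  simp [QQ]

/-- the logarithm of `QQ` from above -/
lemma QQ_up (hL : 1 ≤ P.natDegree) (m : ℕ) (hm : 1 ≤ m) (l : List (ℕ × ℝ)) (hl : ∀ p ∈ l, 0 < p.2)
    (w : ℂ) (hw : QQ P m l w ≠ 0) : Real.log ‖QQ P m l w‖ ≤
      (l.map (fun p => (p.1 : ℝ))).sum * (P.natDegree ^ 2 * Real.log 2) +
        m * SS P l (fun t ρ => Real.log (max t ρ)) w := by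
  induction l with
  | nil => simp [QQ, SS]
  | cons p l ih =>
    rw [QQ_cons] at hw ⊢
    have hw1 := left_ne_zero_of_mul hw
    have hw2 := right_ne_zero_of_mul hw
    have ih' := ih (fun q hq => hl q (List.mem_cons_of_mem _ hq)) hw2
    have hp : 0 < p.2 := hl p List.mem_cons_self
    rw [norm_mul, Real.log_mul (norm_ne_zero_iff.2 hw1) (norm_ne_zero_iff.2 hw2), SS_cons,
      List.map_cons, List.sum_cons, norm_pow, Real.log_pow]
    have h1 : (p.1 : ℝ) * Real.log ‖((dif P w).map (fun d => d ^ m - (p.2 : ℂ) ^ m)).prod‖ ≤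
        (p.1 : ℝ) * (P.natDegree ^ 2 * Real.log 2 +
          m * ((dif P w).map (fun d => Real.log (max ‖d‖ p.2))).sum) := by
      rcases Nat.eq_zero_or_pos p.1 with h0 | h0
      · rw [h0]; simp
      · apply mul_le_mul_of_nonneg_left _ (Nat.cast_nonneg _)
        have hne : ((dif P w).map (fun d => d ^ m - (p.2 : ℂ) ^ m)).prod ≠ 0 := by
          intro h; rw [h, zero_pow h0.ne'] at hw1; exact hw1 rfl
        have hz : ∀ d ∈ dif P w, d ^ m - (p.2 : ℂ) ^ m ≠ 0 := by
          intro d hd h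
          apply hne
          rw [Multiset.prod_eq_zero_iff, Multiset.mem_map]
          exact ⟨d, hd, h⟩
        rw [log_norm_multiset _ (by
          intro z hz'
          obtain ⟨d, hd, rfl⟩ := Multiset.mem_map.1 hz'
          exact hz d hd), Multiset.map_map]
        have h2 : ((dif P w).map (fun d => Real.log 2 + m * Real.log (max ‖d‖ p.2))).sum =
            P.natDegree ^ 2 * Real.log 2 + m * ((dif P w).map (fun d => Real.log (max ‖d‖ p.2))).sum := by
          rw [Multiset.sum_map_add, Multiset.sum_map_mul_left, Multiset.map_const',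
            Multiset.sum_replicate, card_dif hL, nsmul_eq_mul]
          push_cast
          ring
        rw [← h2]
        apply Multiset.sum_map_le_sum_map
        intro d hd
        exact up_bound m hm d p.2 hp (hz d hd)
    linarith

/-- the logarithm of `QQ` from below -/
lemma QQ_low (m : ℕ) (hm : 1 ≤ m) (l : List (ℕ × ℝ)) (w : ℂ)
    (hl : ∀ p ∈ l, 0 < p.2 ∧ ∀ d ∈ dif P w, ‖d‖ ≠ p.2) : QQ P m l w ≠ 0 ∧
      m * SS P l (fun t ρ => Real.log (max t ρ)) w - SS P l kk w ≤ Real.log ‖QQ P m l w‖ := by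
  induction l with
  | nil => simp [QQ, SS]
  | cons p l ih =>
    obtain ⟨ih1, ih2⟩ := ih (fun q hq => hl q (List.mem_cons_of_mem _ hq))
    obtain ⟨hp, hne⟩ := hl p List.mem_cons_self
    have hz : ∀ d ∈ dif P w, d ^ m - (p.2 : ℂ) ^ m ≠ 0 := fun d hd =>
      (low_bound m hm d p.2 hp (hne d hd)).1
    have hprod : ((dif P w).map (fun d => d ^ m - (p.2 : ℂ) ^ m)).prod ≠ 0 := by
      rw [Ne, Multiset.prod_eq_zero_iff, Multiset.mem_map]
      rintro ⟨d, hd, h⟩
      exact hz d hd h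
    rw [QQ_cons]
    refine ⟨mul_ne_zero (pow_ne_zero _ hprod) ih1, ?_⟩
    rw [norm_mul, Real.log_mul (norm_ne_zero_iff.2 (pow_ne_zero _ hprod)) (norm_ne_zero_iff.2 ih1),
      SS_cons, SS_cons, norm_pow, Real.log_pow, log_norm_multiset _ (by
          intro z hz'
          obtain ⟨d, hd, rfl⟩ := Multiset.mem_map.1 hz'
          exact hz d hd), Multiset.map_map]
    have h1 : m * ((dif P w).map (fun d => Real.log (max ‖d‖ p.2))).sum -
        ((dif P w).map (fun d => kk ‖d‖ p.2)).sum ≤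
        ((dif P w).map ((fun z => Real.log ‖z‖) ∘ (fun d => d ^ m - (p.2 : ℂ) ^ m))).sum := by
      rw [← Multiset.sum_map_mul_left, ← Multiset.sum_map_sub]
      apply Multiset.sum_map_le_sum_map
      intro d hd
      exact (low_bound m hm d p.2 hp (hne d hd)).2
    have h2 := mul_le_mul_of_nonneg_left h1 (Nat.cast_nonneg (α := ℝ) p.1)
    linarith

lemma SS_lp (hL : 1 ≤ P.natDegree) (l : List (ℕ × ℝ)) (w : ℂ) : SS P l lp w =
    SS P l (fun t ρ => Real.log (max t ρ)) w -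
      (l.map (fun p => (p.1 : ℝ) * (P.natDegree ^ 2 * Real.log p.2))).sum := by
  induction l with
  | nil => simp [SS]
  | cons p l ih =>
    rw [SS_cons, SS_cons, ih, List.map_cons, List.sum_cons]
    have : ((dif P w).map (fun d => lp ‖d‖ p.2)).sum =
        ((dif P w).map (fun d => Real.log (max ‖d‖ p.2))).sum - P.natDegree ^ 2 * Real.log p.2 := by
      unfold lp
      rw [Multiset.sum_map_sub, Multiset.map_const', Multiset.sum_replicate, card_dif hL, nsmul_eq_mul]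
      push_cast
      ring
    rw [this]
    ring

/-- step 2 -/
lemma step2 (hP : P.Monic) (hL : 1 ≤ P.natDegree) (l : List (ℕ × ℝ)) (ρ₀ : ℝ) (hρ₀ : 0 < ρ₀)
    (hl : ∀ p ∈ l, 0 < p.2 ∧ ∀ d ∈ dif P 0, ‖d‖ ≠ p.2) (ε : ℝ) (hε : 0 < ε) :
    ∃ w : ℂ, ‖w‖ = ρ₀ ∧ SS P l lp 0 - ε ≤ SS P l lp w := by
  set K : ℝ := (l.map (fun p => (p.1 : ℝ))).sum * (P.natDegree ^ 2 * Real.log 2) + SS P l kk 0 with hK
  obtain ⟨m, hm⟩ := exists_nat_gt (max (K / ε) 0)
  have hm0 : (0:ℝ) < m := lt_of_le_of_lt (le_max_right _ _) hm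
  have hm1 : 1 ≤ m := by
    have : 0 < m := by exact_mod_cast hm0
    exact this
  have hKm : K ≤ m * ε := by
    have := lt_of_le_of_lt (le_max_left _ _) hm
    rw [div_lt_iff₀ hε] at this
    exact this.le
  obtain ⟨w, hw, hle⟩ := QQ_max hP hL m hm1 l ρ₀ hρ₀
  obtain ⟨h1, h2⟩ := QQ_low m hm1 l 0 hl
  have hn : 0 < ‖QQ P m l 0‖ := norm_pos_iff.2 h1
  have h3 := Real.log_le_log hn hle
  have h4 : QQ P m l w ≠ 0 := norm_pos_iff.1 (hn.trans_le hle)
  have h5 := QQ_up hL m hm1 l (fun p hp => (hl p hp).1) w h4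
  refine ⟨w, hw, ?_⟩
  rw [SS_lp hL, SS_lp hL]
  have h6 : (m : ℝ) * SS P l (fun t ρ => Real.log (max t ρ)) 0 - m * ε ≤
      m * SS P l (fun t ρ => Real.log (max t ρ)) w := by linarith
  rw [← mul_sub] at h6
  have h7 := le_of_mul_le_mul_left h6 hm0
  linarith

lemma SS_lp_eq (l : List (ℕ × ℝ)) (w : ℂ) : SS P l lp w = ((dif P w).map (fun d => HN l ‖d‖)).sum := by
  induction l with
  | nil => simp [SS, HN]
  | cons p l ih =>
    rw [SS_cons, ih, ← Multiset.sum_map_mul_left, ← Multiset.sum_map_add]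
    simp [HN]

/-- the main inequality -/
lemma main_ineq (hP : P.Monic) (hL : 1 ≤ P.natDegree) (s : ℝ) (hs : 0 < s) (ρ₀ : ℝ) (hρ₀ : 0 < ρ₀)
    (δ : ℝ) (hδ : 0 < δ) : ∃ w : ℂ, ‖w‖ = ρ₀ ∧
      ((dif P 0).map (fun d => ‖d‖ ^ s)).sum - δ ≤ ((dif P w).map (fun d => ‖d‖ ^ s)).sum := by
  classical
  have hL2 : (0:ℝ) < (P.natDegree : ℝ) ^ 2 := by
    have : (0:ℝ) < P.natDegree := by exact_mod_cast hL
    positivity
  set D : Finset ℝ := ((dif P 0).map (fun d => ‖d‖)).toFinset.filter (fun t => 0 < t) with hD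
  set η : ℝ := δ / (2 * P.natDegree ^ 2) with hη
  have hη0 : 0 < η := by positivity
  obtain ⟨N, l, hN, hl, hle, heq⟩ := log_approx_nat s hs D (fun t ht => (Finset.mem_filter.1 ht).2) η hη0
  have hNr : (0:ℝ) < N := by exact_mod_cast hN
  have hmemD : ∀ d ∈ dif P 0, d ≠ 0 → ‖d‖ ∈ D := by
    intro d hd h0
    rw [hD, Finset.mem_filter, Multiset.mem_toFinset, Multiset.mem_map]
    exact ⟨⟨d, hd, rfl⟩, norm_pos_iff.2 h0⟩
  obtain ⟨w, hw, hw2⟩ := step2 hP hL l ρ₀ hρ₀ (by
    intro p hp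
    refine ⟨(hl p hp).1, ?_⟩
    intro d hd h
    by_cases h0 : d = 0
    · rw [h0, norm_zero] at h
      have := (hl p hp).1
      linarith
    · have := hmemD d hd h0
      rw [h] at this
      exact (hl p hp).2 this) (N * δ / 2) (by positivity)
  refine ⟨w, hw, ?_⟩
  rw [SS_lp_eq, SS_lp_eq] at hw2
  have h1 : ((dif P w).map (fun d => HN l ‖d‖)).sum ≤ N * ((dif P w).map (fun d => ‖d‖ ^ s)).sum := by
    rw [← Multiset.sum_map_mul_left]
    apply Multiset.sum_map_le_sum_map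
    intro d _
    exact hle _ (norm_nonneg d)
  have h2 : N * ((dif P 0).map (fun d => ‖d‖ ^ s)).sum - N * (P.natDegree ^ 2 * η) ≤
      ((dif P 0).map (fun d => HN l ‖d‖)).sum := by
    have e : N * ((dif P 0).map (fun d => ‖d‖ ^ s)).sum - N * (P.natDegree ^ 2 * η) =
        ((dif P 0).map (fun d => N * (‖d‖ ^ s - η))).sum := by
      rw [Multiset.sum_map_mul_left, Multiset.sum_map_sub, Multiset.map_const',
        Multiset.sum_replicate, card_dif hL, nsmul_eq_mul]
      push_cast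
      ring
    rw [e]
    apply Multiset.sum_map_le_sum_map
    intro d hd
    by_cases h0 : d = 0
    · rw [h0, norm_zero, Real.zero_rpow hs.ne']
      have : 0 ≤ HN l 0 := by
        unfold HN
        apply List.sum_nonneg
        intro x hx
        obtain ⟨p, hp, rfl⟩ := List.mem_map.1 hx
        exact mul_nonneg (Nat.cast_nonneg _) (lp_nonneg (hl p hp).1)
      nlinarith
    · exact heq _ (hmemD d hd h0)
  have h3 : (P.natDegree : ℝ) ^ 2 * η = δ / 2 := by
    rw [hη]; field_simp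
  rw [h3] at h2
  have h4 : N * (((dif P 0).map (fun d => ‖d‖ ^ s)).sum - δ) ≤
      N * ((dif P w).map (fun d => ‖d‖ ^ s)).sum := by linarith
  exact le_of_mul_le_mul_left h4 hNr

/-! ### the values at `0` and at `w ≠ 0` -/

lemma DD_zero (hP : P.Monic) : DD P 0 = X ^ P.natDegree - C 1 := by
  unfold DD
  rw [scaleRoots_zero, hP.leadingCoeff, one_smul, C_1]

lemma value_zero (hP : P.Monic) (hL : 1 ≤ P.natDegree) (s : ℝ) :
    ((dif P 0).map (fun d => ‖d‖ ^ s)).sum = (P.natDegree : ℝ) ^ 2 * csL s P.natDegree := by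
  set L := P.natDegree with hLd
  have hL0 : L ≠ 0 := by omega
  set ζ : ℂ := Complex.exp (2 * Real.pi * Complex.I / L) with hζ
  have hprim : IsPrimitiveRoot ζ L := Complex.isPrimitiveRoot_exp L hL0
  have hroots : ∀ α : ℂ, α ^ L = 1 → (DD P 0).roots = (Multiset.range L).map (ζ ^ · * α) := by
    intro α hα
    have := hprim.nthRoots_eq hα
    rw [DD_zero hP]
    exact this
  have hn : ‖ζ‖ = 1 := by
    rw [hζ]
    have : 2 * (Real.pi : ℂ) * Complex.I / L = ((2 * Real.pi / L : ℝ) : ℂ) * Complex.I := by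
      push_cast; ring
    rw [this, Complex.norm_exp_ofReal_mul_I]
  unfold dif
  rw [Multiset.map_map, sum_product']
  have h1 : ∀ x ∈ (DD P 0).roots, (Multiset.map (fun y => ((fun d : ℂ => ‖d‖ ^ s) ∘
      fun z : ℂ × ℂ => z.1 - z.2) (x, y)) (DD P 0).roots).sum =
      ∑ j ∈ Finset.range L, ‖1 - ζ ^ j‖ ^ s := by
    intro x hx
    have hx1 : x ^ L = 1 := by
      rw [DD_zero hP, ← hLd, mem_roots (X_pow_sub_C_ne_zero (by omega) _)] at hx
      simp [sub_eq_zero] at hx
      exact hx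
    have hxn : ‖x‖ = 1 := Complex.norm_eq_one_of_pow_eq_one hx1 hL0
    rw [hroots x hx1, Multiset.map_map]
    show ((Multiset.range L).map _).sum = ((Multiset.range L).map _).sum
    congr 1
    apply Multiset.map_congr rfl
    intro j _
    simp only [Function.comp_apply]
    have : x - ζ ^ j * x = (1 - ζ ^ j) * x := by ring
    rw [this, norm_mul, hxn, mul_one]
  rw [Multiset.map_congr rfl h1, Multiset.map_const', Multiset.sum_replicate, card_roots_DD hL,
    nsmul_eq_mul]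
  unfold csL
  have h2 : ∀ j ∈ Finset.range L, ‖1 - ζ ^ j‖ ^ s =
      ‖1 - Complex.exp (2 * Real.pi * Complex.I * j / L)‖ ^ s := by
    intro j _
    rw [hζ, ← Complex.exp_nat_mul]
    congr 4
    ring
  rw [Finset.sum_congr rfl h2]
  have hLr : (L : ℝ) ≠ 0 := by exact_mod_cast hL0
  rw [← hLd]
  field_simp

lemma DD_scale (hP : P.Monic) (hL : 1 ≤ P.natDegree) (w : ℂ) (hw : w ≠ 0) :
    DD P w = (P - C ((w ^ P.natDegree)⁻¹)).scaleRoots w := by
  have hdeg : (P - C ((w ^ P.natDegree)⁻¹)).natDegree = P.natDegree := natDegree_sub_C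
  ext i
  unfold DD
  rw [coeff_scaleRoots, hdeg, coeff_sub, coeff_sub, coeff_scaleRoots, sub_mul]
  congr 1
  rw [coeff_one, coeff_C]
  by_cases hi : i = 0
  · rw [if_pos hi, if_pos hi, hi, Nat.sub_zero, inv_mul_cancel₀ (pow_ne_zero _ hw)]
  · rw [if_neg hi, if_neg hi, zero_mul]

lemma value_w (hP : P.Monic) (hL : 1 ≤ P.natDegree) (w : ℂ) (hw : w ≠ 0) (s : ℝ) :
    ((dif P w).map (fun d => ‖d‖ ^ s)).sum = ‖w‖ ^ s * rootSum (P - C ((w ^ P.natDegree)⁻¹)) s := by
  unfold dif rootSum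
  rw [DD_scale hP hL w hw, roots_scaleRoots _ (isUnit_iff_ne_zero.2 hw), Multiset.map_map, sum_product',
    sum_product', Multiset.map_map, ← Multiset.sum_map_mul_left]
  congr 1
  apply Multiset.map_congr rfl
  intro x _
  simp only [Function.comp_apply]
  rw [Multiset.map_map, ← Multiset.sum_map_mul_left]
  congr 1
  apply Multiset.map_congr rfl
  intro y _
  simp only [Function.comp_apply]
  rw [← mul_sub, norm_mul, Real.mul_rpow (norm_nonneg _) (norm_nonneg _)]

theorem pa1 : Pool.Agent.W784.RR.PA1 := by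
  intro P hP hL r s δ hr hs hδ
  set L := P.natDegree with hLd
  have hLr : (0:ℝ) < L := by exact_mod_cast hL
  set ρ₀ : ℝ := r ^ (-(1 / (L : ℝ))) with hρ₀
  have hρ₀pos : 0 < ρ₀ := Real.rpow_pos_of_pos hr _
  obtain ⟨w, hw, hineq⟩ := main_ineq hP hL s hs ρ₀ hρ₀pos (δ * ρ₀ ^ s)
    (mul_pos hδ (Real.rpow_pos_of_pos hρ₀pos s))
  have hw0 : w ≠ 0 := by
    intro h; rw [h, norm_zero] at hw; exact hρ₀pos.ne hw
  refine ⟨(w ^ L)⁻¹, ?_, ?_⟩
  · rw [norm_inv, norm_pow, hw, hρ₀, ← Real.rpow_natCast, ← Real.rpow_mul hr.le]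
    have : -(1 / (L : ℝ)) * (L : ℝ) = -1 := by field_simp
    rw [this, Real.rpow_neg_one, inv_inv]
  · rw [value_zero hP hL, value_w hP hL w hw0, hw, ← hLd] at hineq
    have hρs : 0 < ρ₀ ^ s := Real.rpow_pos_of_pos hρ₀pos s
    have e1 : r ^ (s / (L : ℝ)) * ρ₀ ^ s = 1 := by
      rw [hρ₀, ← Real.rpow_mul hr.le, ← Real.rpow_add hr]
      have : s / (L : ℝ) + -(1 / (L : ℝ)) * s = 0 := by ring
      rw [this, Real.rpow_zero]
    have h1 : ρ₀ ^ s * (r ^ (s / (L : ℝ)) * (L : ℝ) ^ 2 * csL s L - δ) ≤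
        ρ₀ ^ s * rootSum (P - C ((w ^ L)⁻¹)) s := by
      have e2 : ρ₀ ^ s * (r ^ (s / (L : ℝ)) * (L : ℝ) ^ 2 * csL s L - δ) =
          (L : ℝ) ^ 2 * csL s L - δ * ρ₀ ^ s := by
        linear_combination ((L : ℝ) ^ 2 * csL s L) * e1
      rw [e2]
      exact hineq
    exact le_of_mul_le_mul_left h1 hρs

end Pool.Agent.W688.RR
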