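import Pool.Agent.Helper88.RB.Defs

/-!
Positive definiteness of the Gaussian kernel, and mixtures of Gaussians.
-/

set_option autoImplicit false

namespace Pool.Agent.W688.RR

open MeasureTheory Set Filter Topology
open scoped ENNReal NNReal
open Pool.Agent.Helper88.RB (E)

variable {n : ℕ}

/-- Gaussian kernel -/
noncomputable def gk (t : ℝ) (z : E n) : ℝ≥0∞ := ENNReal.ofReal (Real.exp (-(t * ‖z‖ ^ 2)))

lemma gk_meas (t : ℝ) : Measurable (gk t : E n → ℝ≥0∞) := by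
  unfold gk; fun_prop

lemma gk_c (t : ℝ) {α : Type*} [MeasurableSpace α] {f : α → E n} (hf : Measurable f) :
    Measurable (fun a => gk t (f a)) := (gk_meas t).comp hf

lemma gk_meas2 : Measurable (fun p : ℝ × E n => gk p.1 p.2) := by
  unfold gk; fun_prop

lemma gk_c2 {α : Type*} [MeasurableSpace α] {g : α → ℝ} {f : α → E n} (hg : Measurable g)
    (hf : Measurable f) : Measurable (fun a => gk (g a) (f a)) := gk_meas2.comp (hg.prodMk hf)

lemma gk_neg (t : ℝ) (z : E n) : gk t (-z) = gk t z := by unfold gk; rw [norm_neg]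

lemma gk_le_one {t : ℝ} (ht : 0 ≤ t) (z : E n) : gk t z ≤ 1 := by
  unfold gk
  rw [ENNReal.ofReal_le_one, Real.exp_le_one_iff]
  have := mul_nonneg ht (sq_nonneg ‖z‖)
  linarith

lemma gk_int {t : ℝ} (ht : 0 < t) : ∫⁻ w : E n, gk t w ≠ 0 ∧ ∫⁻ w : E n, gk t w ≠ ∞ := by
  have h1 := GaussianFourier.integral_rexp_neg_mul_sq_norm (V := E n) ht
  have hpos : 0 < (Real.pi / t) ^ (Module.finrank ℝ (E n) / 2 : ℝ) := by positivity
  have hint : Integrable (fun v : E n => Real.exp (-t * ‖v‖ ^ 2)) := by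
    apply Integrable.of_integral_ne_zero
    rw [h1]; exact hpos.ne'
  have h2 : ∫⁻ w : E n, gk t w = ENNReal.ofReal (∫ v : E n, Real.exp (-t * ‖v‖ ^ 2)) := by
    rw [ofReal_integral_eq_lintegral_ofReal hint (Eventually.of_forall fun _ => (Real.exp_pos _).le)]
    unfold gk
    simp only [neg_mul]
  rw [h2, h1]
  refine ⟨?_, ENNReal.ofReal_ne_top⟩
  rw [Ne, ENNReal.ofReal_eq_zero, not_le]
  exact hpos

lemma gk_conv (t : ℝ) (x y : E n) : ∫⁻ w, gk (2 * t) (x - w) * gk (2 * t) (y - w) =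
    (∫⁻ w : E n, gk (4 * t) w) * gk t (x - y) := by
  have h1 : ∀ w : E n, gk (2 * t) (x - w) * gk (2 * t) (y - w) =
      gk (4 * t) (w - (1 / 2 : ℝ) • (x + y)) * gk t (x - y) := by
    intro w
    unfold gk
    rw [← ENNReal.ofReal_mul (Real.exp_pos _).le, ← ENNReal.ofReal_mul (Real.exp_pos _).le,
      ← Real.exp_add, ← Real.exp_add]
    congr 2
    have hp := parallelogram_law_with_norm ℝ (x - w) (y - w)
    have e1 : x - w - (y - w) = x - y := by abel
    have e2 : x - w + (y - w) = -((2 : ℝ) • (w - (1 / 2 : ℝ) • (x + y))) := by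
      rw [smul_sub, smul_smul]
      norm_num
      rw [two_smul]
      abel
    rw [e1, e2, norm_neg, norm_smul, Real.norm_eq_abs, abs_of_pos (by norm_num : (0:ℝ) < 2)] at hp
    linear_combination t * hp
  simp_rw [h1]
  rw [lintegral_mul_const _ (gk_c _ (by fun_prop)), lintegral_sub_right_eq_self (fun w => gk (4 * t) w)]

lemma two_mul_le (a b : ℝ≥0∞) : 2 * (a * b) ≤ a * a + b * b := by
  by_cases ha : a = ∞
  · rw [ha]; simp
  by_cases hb : b = ∞
  · rw [hb]; simp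
  lift a to ℝ≥0 using ha
  lift b to ℝ≥0 using hb
  have h := two_mul_le_add_sq a b
  have : 2 * (a * b) ≤ a * a + b * b := by
    rw [← mul_assoc, ← sq, ← sq]; exact h
  exact_mod_cast this

/-- the Gaussian energy as an integral -/
lemma gk_energy (t : ℝ) (μ ν : Measure (E n)) [SFinite μ] [SFinite ν] (h : E n) :
    (∫⁻ w : E n, gk (4 * t) w) * ∫⁻ x, ∫⁻ y, gk t (x + h - y) ∂ν ∂μ =
      ∫⁻ w, (∫⁻ x, gk (2 * t) (x + h - w) ∂μ) * (∫⁻ y, gk (2 * t) (y - w) ∂ν) := by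
  have m3 : Measurable (fun p : E n × E n => gk t (p.1 + h - p.2)) := gk_c t (by fun_prop)
  rw [← lintegral_const_mul _ (m3.lintegral_prod_right')]
  have e1 : ∀ x : E n, (∫⁻ w : E n, gk (4 * t) w) * ∫⁻ y, gk t (x + h - y) ∂ν =
      ∫⁻ w, gk (2 * t) (x + h - w) * (∫⁻ y, gk (2 * t) (y - w) ∂ν) := by
    intro x
    rw [← lintegral_const_mul _ (gk_c t (by fun_prop))]
    simp_rw [← gk_conv t (x + h)]
    rw [lintegral_lintegral_swap]
    · apply lintegral_congr
      intro w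
      rw [lintegral_const_mul _ (gk_c (2 * t) (by fun_prop))]
    · apply Measurable.aemeasurable
      apply Measurable.fun_mul
      · exact gk_c (2 * t) (by fun_prop)
      · exact gk_c (2 * t) (by fun_prop)
  simp_rw [e1]
  have m1 : Measurable (fun w : E n => ∫⁻ y, gk (2 * t) (y - w) ∂ν) := by
    have : Measurable (fun p : E n × E n => gk (2 * t) (p.2 - p.1)) := gk_c _ (by fun_prop)
    exact this.lintegral_prod_right'
  rw [lintegral_lintegral_swap]
  · apply lintegral_congr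
    intro w
    rw [lintegral_mul_const _ (gk_c (2 * t) (by fun_prop))]
  · apply Measurable.aemeasurable
    apply Measurable.fun_mul
    · exact gk_c (2 * t) (by fun_prop)
    · exact m1.comp measurable_snd

/-- positive definiteness -/
theorem gauss_pd {t : ℝ} (ht : 0 < t) (μ ν : Measure (E n)) [SFinite μ] [SFinite ν] (h : E n) :
    2 * ∫⁻ x, ∫⁻ y, gk t (x + h - y) ∂ν ∂μ ≤
      (∫⁻ x, ∫⁻ y, gk t (x - y) ∂μ ∂μ) + ∫⁻ x, ∫⁻ y, gk t (x - y) ∂ν ∂ν := by
  obtain ⟨h0, hinf⟩ := gk_int (n := n) (show 0 < 4 * t by linarith)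
  rw [← ENNReal.mul_le_mul_iff_right h0 hinf, mul_add, mul_left_comm]
  have e0 : ∀ (μ : Measure (E n)) [SFinite μ], ∫⁻ x, ∫⁻ y, gk t (x - y) ∂μ ∂μ =
      ∫⁻ x, ∫⁻ y, gk t (x + 0 - y) ∂μ ∂μ := by intro μ _; simp
  rw [e0 μ, e0 ν, gk_energy, gk_energy, gk_energy]
  have hm : Measurable (fun w : E n => ∫⁻ x, gk (2 * t) (x + h - w) ∂μ) := by
    have : Measurable (fun p : E n × E n => gk (2 * t) (p.2 + h - p.1)) := gk_c _ (by fun_prop)
    exact this.lintegral_prod_right'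
  have hm0 : ∀ (μ : Measure (E n)) [SFinite μ],
      Measurable (fun w : E n => ∫⁻ x, gk (2 * t) (x - w) ∂μ) := by
    intro μ _
    have : Measurable (fun p : E n × E n => gk (2 * t) (p.2 - p.1)) := gk_c _ (by fun_prop)
    exact this.lintegral_prod_right'
  rw [← lintegral_const_mul _ (hm.fun_mul (hm0 ν))]
  calc ∫⁻ w, 2 * ((∫⁻ x, gk (2 * t) (x + h - w) ∂μ) * (∫⁻ y, gk (2 * t) (y - w) ∂ν))
      ≤ ∫⁻ w, ((∫⁻ x, gk (2 * t) (x + h - w) ∂μ) * (∫⁻ x, gk (2 * t) (x + h - w) ∂μ) +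
          (∫⁻ y, gk (2 * t) (y - w) ∂ν) * (∫⁻ y, gk (2 * t) (y - w) ∂ν)) :=
        lintegral_mono fun w => two_mul_le _ _
    _ = (∫⁻ w, (∫⁻ x, gk (2 * t) (x + h - w) ∂μ) * (∫⁻ x, gk (2 * t) (x + h - w) ∂μ)) +
          ∫⁻ w, (∫⁻ y, gk (2 * t) (y - w) ∂ν) * (∫⁻ y, gk (2 * t) (y - w) ∂ν) :=
        lintegral_add_left (hm.fun_mul hm) _
    _ = _ := by
        congr 1
        · have e2 : ∀ w : E n, ∀ x : E n, x + h - w = x - (w - h) := by intro w x; abel
          simp_rw [e2]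
          rw [lintegral_sub_right_eq_self (fun w => (∫⁻ x, gk (2 * t) (x - w) ∂μ) *
            (∫⁻ x, gk (2 * t) (x - w) ∂μ))]
          simp
        · simp

/-- shifts do not increase the Gaussian energy -/
theorem gauss_shift {t : ℝ} (ht : 0 < t) (μ : Measure (E n)) [SFinite μ] (h : E n) :
    ∫⁻ x, ∫⁻ y, gk t (x + h - y) ∂μ ∂μ ≤ ∫⁻ x, ∫⁻ y, gk t (x - y) ∂μ ∂μ := by
  have := gauss_pd ht μ μ h
  rw [← two_mul] at this
  exact (ENNReal.mul_le_mul_iff_right (by norm_num) (by norm_num)).1 this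

/-- Tonelli for mixtures -/
lemma mix_tonelli (μ ν : Measure (E n)) [SFinite μ] [SFinite ν] (F : ℝ → E n → E n → ℝ≥0∞)
    (hF : Measurable (fun p : ℝ × E n × E n => F p.1 p.2.1 p.2.2)) :
    ∫⁻ x, ∫⁻ y, (∫⁻ t in Ioi (0:ℝ), F t x y) ∂ν ∂μ = ∫⁻ t in Ioi (0:ℝ), (∫⁻ x, ∫⁻ y, F t x y ∂ν ∂μ) := by
  have e1 : ∀ x : E n, ∫⁻ y, (∫⁻ t in Ioi (0:ℝ), F t x y) ∂ν = ∫⁻ t in Ioi (0:ℝ), (∫⁻ y, F t x y ∂ν) := by
    intro x
    rw [lintegral_lintegral_swap]
    apply Measurable.aemeasurable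
    have : Measurable (fun p : E n × ℝ => (p.2, x, p.1)) := by fun_prop
    exact hF.comp this
  simp_rw [e1]
  rw [lintegral_lintegral_swap]
  apply Measurable.aemeasurable
  have h2 : Measurable (fun q : (E n × ℝ) × E n => F q.1.2 q.1.1 q.2) := by
    have : Measurable (fun q : (E n × ℝ) × E n => (q.1.2, q.1.1, q.2)) := by fun_prop
    exact hF.comp this
  exact h2.lintegral_prod_right'

/-- Riesz kernel -/
noncomputable def rz (s : ℝ) (z : E n) : ℝ≥0∞ := (ENNReal.ofReal ‖z‖) ^ (-s)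

lemma rz_meas (s : ℝ) : Measurable (rz s : E n → ℝ≥0∞) := by
  unfold rz; fun_prop

lemma rz_mix {s : ℝ} (hs : 0 < s) (z : E n) :
    rz s z = ∫⁻ t in Ioi (0:ℝ), ENNReal.ofReal (t ^ (s / 2 - 1) / Real.Gamma (s / 2)) * gk t z := by
  have hG : 0 < Real.Gamma (s / 2) := Real.Gamma_pos_of_pos (by linarith)
  by_cases hz : z = 0
  · subst hz
    have h1 : rz s (0 : E n) = ∞ := by
      unfold rz
      rw [norm_zero, ENNReal.ofReal_zero, ENNReal.zero_rpow_of_neg (by linarith)]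
    rw [h1]
    symm
    have h2 : ∀ t : ℝ, gk t (0 : E n) = 1 := by
      intro t; unfold gk; simp
    simp_rw [h2, mul_one]
    by_contra hne
    have hint : IntegrableOn (fun t : ℝ => t ^ (s / 2 - 1) / Real.Gamma (s / 2)) (Ioi 0) := by
      refine ⟨by fun_prop, ?_⟩
      rw [hasFiniteIntegral_iff_ofReal]
      · exact lt_top_iff_ne_top.2 hne
      · filter_upwards [self_mem_ae_restrict measurableSet_Ioi] with t ht
        exact div_nonneg (Real.rpow_nonneg (le_of_lt ht) _) hG.le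
    have hint2 : IntegrableOn (fun t : ℝ => t ^ (s / 2 - 1)) (Ioi 0) := by
      have := hint.mul_const (Real.Gamma (s / 2))
      refine this.congr ?_
      filter_upwards with t
      field_simp
    exact not_integrableOn_Ioi_rpow (s / 2 - 1) hint2
  · have hz' : 0 < ‖z‖ := norm_pos_iff.2 hz
    have hz2 : 0 < ‖z‖ ^ 2 := by positivity
    have h1 := Real.integral_rpow_mul_exp_neg_mul_Ioi (a := s / 2) (r := ‖z‖ ^ 2) (by linarith) hz2
    have h2 : 0 < (1 / ‖z‖ ^ 2) ^ (s / 2) * Real.Gamma (s / 2) := by positivity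
    have hint : IntegrableOn (fun t : ℝ => t ^ (s / 2 - 1) * Real.exp (-(‖z‖ ^ 2 * t))) (Ioi 0) := by
      apply Integrable.of_integral_ne_zero
      rw [h1]; exact h2.ne'
    have h3 : ∫⁻ t in Ioi (0:ℝ), ENNReal.ofReal (t ^ (s / 2 - 1) / Real.Gamma (s / 2)) * gk t z =
        ∫⁻ t in Ioi (0:ℝ), ENNReal.ofReal (t ^ (s / 2 - 1) * Real.exp (-(‖z‖ ^ 2 * t)) *
          (Real.Gamma (s / 2))⁻¹) := by
      apply setLIntegral_congr_fun measurableSet_Ioi
      intro t ht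
      unfold gk
      simp only
      rw [← ENNReal.ofReal_mul (div_nonneg (Real.rpow_nonneg (le_of_lt ht) _) hG.le)]
      congr 1
      rw [mul_comm t]
      ring
    rw [h3, ← ofReal_integral_eq_lintegral_ofReal (hint.mul_const _), integral_mul_const, h1]
    · unfold rz
      rw [ENNReal.ofReal_rpow_of_pos hz']
      congr 1
      rw [mul_assoc, mul_inv_cancel₀ hG.ne', mul_one, one_div, Real.inv_rpow hz2.le,
        ← Real.rpow_natCast, ← Real.rpow_mul hz'.le, Real.rpow_neg hz'.le]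
      congr 2
      push_cast
      ring
    · filter_upwards [self_mem_ae_restrict measurableSet_Ioi] with t ht
      have := Real.rpow_nonneg (le_of_lt ht) (s / 2 - 1)
      positivity

/-- shifts do not increase Riesz energies -/
theorem rz_shift {s : ℝ} (hs : 0 < s) (μ : Measure (E n)) [SFinite μ] (h : E n) :
    ∫⁻ x, ∫⁻ y, rz s (x + h - y) ∂μ ∂μ ≤ ∫⁻ x, ∫⁻ y, rz s (x - y) ∂μ ∂μ := by
  simp_rw [rz_mix hs]
  have hm : ∀ h : E n, Measurable (fun p : ℝ × E n × E n =>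
      ENNReal.ofReal (p.1 ^ (s / 2 - 1) / Real.Gamma (s / 2)) * gk p.1 (p.2.1 + h - p.2.2)) := by
    intro h
    apply Measurable.fun_mul
    · fun_prop
    · exact gk_c2 (by fun_prop) (by fun_prop)
  have hm0 : Measurable (fun p : ℝ × E n × E n =>
      ENNReal.ofReal (p.1 ^ (s / 2 - 1) / Real.Gamma (s / 2)) * gk p.1 (p.2.1 - p.2.2)) := by
    have := hm 0
    simpa using this
  rw [mix_tonelli μ μ (fun t x y => ENNReal.ofReal (t ^ (s / 2 - 1) / Real.Gamma (s / 2)) *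
      gk t (x + h - y)) (hm h),
    mix_tonelli μ μ (fun t x y => ENNReal.ofReal (t ^ (s / 2 - 1) / Real.Gamma (s / 2)) *
      gk t (x - y)) hm0]
  apply setLIntegral_mono' measurableSet_Ioi
  intro t ht
  have e : ∀ (g : E n → E n → ℝ≥0∞) (hg : Measurable (fun p : E n × E n => g p.1 p.2)),
      ∫⁻ x, ∫⁻ y, ENNReal.ofReal (t ^ (s / 2 - 1) / Real.Gamma (s / 2)) * g x y ∂μ ∂μ =
      ENNReal.ofReal (t ^ (s / 2 - 1) / Real.Gamma (s / 2)) * ∫⁻ x, ∫⁻ y, g x y ∂μ ∂μ := by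
    intro g hg
    rw [← lintegral_const_mul _ hg.lintegral_prod_right']
    apply lintegral_congr
    intro x
    exact lintegral_const_mul _ (f := fun y => g x y) (hg.comp measurable_prodMk_left)
  rw [e (fun x y => gk t (x + h - y)) (gk_c t (by fun_prop)),
    e (fun x y => gk t (x - y)) (gk_c t (by fun_prop))]
  exact mul_le_mul' le_rfl (gauss_shift ht μ h)

end Pool.Agent.W688.RR
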