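import Pool.Agent.W688.RR_Circle
import Pool.Agent.W688.RR_Gauss

/-!
PA5: energies with kernel `|x-y|^s` on the unit disc.
-/

set_option autoImplicit false

namespace Pool.Agent.W688.RR

open MeasureTheory Set Filter Topology
open scoped ENNReal NNReal
open Pool.Agent.Helper88.RB (E)
open Pool.Agent.W784.RR (cs)

variable {n : ℕ}

/-- the weight -/
noncomputable def ww (s t : ℝ) : ℝ := (1 - Real.exp (-t)) * t ^ (-1 - s / 2)

lemma ww_pos {s t : ℝ} (ht : 0 < t) : 0 < ww s t := by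
  unfold ww
  have : Real.exp (-t) < 1 := by rw [Real.exp_lt_one_iff]; linarith
  have h2 : 0 < t ^ (-1 - s / 2) := by positivity
  have h3 : 0 < 1 - Real.exp (-t) := by linarith
  positivity

lemma ww_meas (s : ℝ) : Measurable (ww s) := by unfold ww; fun_prop

lemma ww_int {s : ℝ} (hs : 0 < s) (hs2 : s < 2) : IntegrableOn (ww s) (Ioi 0) := by
  have hu : Ioi (0:ℝ) = Ioc 0 1 ∪ Ioi 1 := (Ioc_union_Ioi_eq_Ioi zero_le_one).symm
  rw [hu]
  apply IntegrableOn.union
  · have h1 : IntegrableOn (fun t : ℝ => t ^ (-(s / 2))) (Ioc 0 1) := by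
      have := intervalIntegral.intervalIntegrable_rpow' (a := 0) (b := 1) (r := -(s / 2)) (by linarith)
      exact (intervalIntegrable_iff_integrableOn_Ioc_of_le zero_le_one).1 this
    refine Integrable.mono' h1 (ww_meas s).aestronglyMeasurable ?_
    filter_upwards [self_mem_ae_restrict measurableSet_Ioc] with t ht
    rw [Real.norm_of_nonneg (ww_pos ht.1).le]
    unfold ww
    have h2 : 1 - Real.exp (-t) ≤ t := by
      have := Real.add_one_le_exp (-t)
      linarith
    calc (1 - Real.exp (-t)) * t ^ (-1 - s / 2) ≤ t * t ^ (-1 - s / 2) := by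
          have : 0 ≤ t ^ (-1 - s / 2) := Real.rpow_nonneg ht.1.le _
          gcongr
      _ = t ^ (-(s / 2)) := by
          have h3 := Real.rpow_add ht.1 1 (-1 - s / 2)
          rw [Real.rpow_one] at h3
          rw [← h3]
          congr 1
          ring
  · have h1 : IntegrableOn (fun t : ℝ => t ^ (-1 - s / 2)) (Ioi 1) :=
      integrableOn_Ioi_rpow_of_lt (by linarith) one_pos
    refine Integrable.mono' h1 (ww_meas s).aestronglyMeasurable ?_
    filter_upwards [self_mem_ae_restrict measurableSet_Ioi] with t ht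
    have ht0 : (0:ℝ) < t := lt_trans one_pos ht
    rw [Real.norm_of_nonneg (ww_pos ht0).le]
    unfold ww
    have h3 : 0 ≤ t ^ (-1 - s / 2) := Real.rpow_nonneg ht0.le _
    have h4 := Real.exp_pos (-t)
    calc (1 - Real.exp (-t)) * t ^ (-1 - s / 2) ≤ 1 * t ^ (-1 - s / 2) := by
          gcongr
          linarith
      _ = _ := one_mul _

/-- the constant -/
noncomputable def WW (s : ℝ) : ℝ := ∫ t in Ioi (0:ℝ), ww s t

lemma WW_pos {s : ℝ} (hs : 0 < s) (hs2 : s < 2) : 0 < WW s := by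
  unfold WW
  rw [integral_pos_iff_support_of_nonneg_ae]
  · have : Ioi (0:ℝ) ⊆ Function.support (ww s) := by
      intro t ht
      exact (ww_pos ht).ne'
    rw [Measure.restrict_apply' measurableSet_Ioi, inter_eq_self_of_subset_right this]
    simp
  · filter_upwards [self_mem_ae_restrict measurableSet_Ioi] with t ht
    exact (ww_pos ht).le
  · exact ww_int hs hs2

lemma pow_mix {s : ℝ} (hs : 0 < s) (hs2 : s < 2) (z : E n) :
    ENNReal.ofReal (WW s) * ENNReal.ofReal (‖z‖ ^ s) =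
      ∫⁻ t in Ioi (0:ℝ), ENNReal.ofReal (t ^ (-1 - s / 2)) * (1 - gk t z) := by
  have h0 : ∀ t ∈ Ioi (0:ℝ), ENNReal.ofReal (t ^ (-1 - s / 2)) * (1 - gk t z) =
      ENNReal.ofReal (t ^ (-1 - s / 2) * (1 - Real.exp (-(t * ‖z‖ ^ 2)))) := by
    intro t ht
    have ht0 : (0:ℝ) < t := ht
    unfold gk
    rw [← ENNReal.ofReal_one, ← ENNReal.ofReal_sub _ (Real.exp_pos _).le, ← ENNReal.ofReal_mul (by positivity)]
  rw [setLIntegral_congr_fun measurableSet_Ioi h0]
  by_cases hz : z = 0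
  · subst hz
    simp [Real.zero_rpow hs.ne']
  · have hz' : 0 < ‖z‖ := norm_pos_iff.2 hz
    have hz2 : 0 < ‖z‖ ^ 2 := by positivity
    have h1 : ∀ t ∈ Ioi (0:ℝ), t ^ (-1 - s / 2) * (1 - Real.exp (-(t * ‖z‖ ^ 2))) =
        (‖z‖ ^ 2) ^ (1 + s / 2) * ww s (‖z‖ ^ 2 * t) := by
      intro t ht
      have ht0 : (0:ℝ) < t := ht
      unfold ww
      rw [Real.mul_rpow hz2.le ht0.le, mul_comm t (‖z‖ ^ 2)]
      have h2 : (‖z‖ ^ 2) ^ (1 + s / 2) * (‖z‖ ^ 2) ^ (-1 - s / 2) = 1 := by
        rw [← Real.rpow_add hz2]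
        have : 1 + s / 2 + (-1 - s / 2) = 0 := by ring
        rw [this, Real.rpow_zero]
      calc t ^ (-1 - s / 2) * (1 - Real.exp (-(‖z‖ ^ 2 * t)))
          = ((‖z‖ ^ 2) ^ (1 + s / 2) * (‖z‖ ^ 2) ^ (-1 - s / 2)) *
            (t ^ (-1 - s / 2) * (1 - Real.exp (-(‖z‖ ^ 2 * t)))) := by rw [h2, one_mul]
        _ = _ := by ring
    have h1' : ∀ t ∈ Ioi (0:ℝ), ENNReal.ofReal (t ^ (-1 - s / 2) * (1 - Real.exp (-(t * ‖z‖ ^ 2)))) =
        ENNReal.ofReal ((‖z‖ ^ 2) ^ (1 + s / 2) * ww s (‖z‖ ^ 2 * t)) := by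
      intro t ht
      rw [h1 t ht]
    rw [setLIntegral_congr_fun measurableSet_Ioi h1']
    have hint : IntegrableOn (fun t => ww s (‖z‖ ^ 2 * t)) (Ioi 0) := by
      have := (integrableOn_Ioi_comp_mul_left_iff (ww s) 0 hz2).2 (by
        rw [mul_zero]; exact ww_int hs hs2)
      exact this
    rw [← ofReal_integral_eq_lintegral_ofReal (hint.const_mul _), integral_const_mul,
      integral_comp_mul_left_Ioi (ww s) 0 hz2, mul_zero, smul_eq_mul, ← ENNReal.ofReal_mul (WW_pos hs hs2).le]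
    · congr 1
      have h3 : (‖z‖ ^ 2) ^ (1 + s / 2) = ‖z‖ ^ 2 * ‖z‖ ^ s := by
        rw [Real.rpow_add hz2, Real.rpow_one, ← Real.rpow_natCast, ← Real.rpow_mul hz'.le]
        congr 2
        push_cast
        ring
      rw [h3]
      unfold WW
      field_simp
    · filter_upwards [self_mem_ae_restrict measurableSet_Ioi] with t ht
      have ht0 : (0:ℝ) < t := ht
      have := ww_pos (s := s) (mul_pos hz2 ht0)
      positivity

lemma pow_energy {s : ℝ} (hs : 0 < s) (hs2 : s < 2) (μ ν : Measure (E n)) [IsProbabilityMeasure μ]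
    [IsProbabilityMeasure ν] :
    ENNReal.ofReal (WW s) * ∫⁻ x, ∫⁻ y, ENNReal.ofReal (‖x - y‖ ^ s) ∂ν ∂μ =
      ∫⁻ t in Ioi (0:ℝ), ENNReal.ofReal (t ^ (-1 - s / 2)) * (1 - ∫⁻ x, ∫⁻ y, gk t (x - y) ∂ν ∂μ) := by
  have e1 : ∀ x : E n, ∫⁻ y, ENNReal.ofReal (WW s) * ENNReal.ofReal (‖x - y‖ ^ s) ∂ν =
      ENNReal.ofReal (WW s) * ∫⁻ y, ENNReal.ofReal (‖x - y‖ ^ s) ∂ν := by
    intro x
    rw [lintegral_const_mul _ (by fun_prop)]
  have m0 : Measurable (fun x : E n => ∫⁻ y, ENNReal.ofReal (‖x - y‖ ^ s) ∂ν) := by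
    have : Measurable (fun p : E n × E n => ENNReal.ofReal (‖p.1 - p.2‖ ^ s)) := by fun_prop
    exact this.lintegral_prod_right'
  rw [← lintegral_const_mul _ m0]
  simp_rw [← e1, pow_mix hs hs2]
  have m1 : Measurable (fun p : ℝ × E n × E n => ENNReal.ofReal (p.1 ^ (-1 - s / 2)) *
      (1 - gk p.1 (p.2.1 - p.2.2))) := by
    apply Measurable.fun_mul
    · fun_prop
    · exact Measurable.fun_sub measurable_const (gk_c2 (by fun_prop) (by fun_prop))
  rw [mix_tonelli μ ν (fun t x y => ENNReal.ofReal (t ^ (-1 - s / 2)) * (1 - gk t (x - y))) m1]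
  apply setLIntegral_congr_fun measurableSet_Ioi
  intro t ht
  simp only
  have ht0 : (0:ℝ) < t := ht
  have m2 : Measurable (fun p : E n × E n => gk t (p.1 - p.2)) := gk_c t (by fun_prop)
  have m3 : Measurable (fun p : E n × E n => 1 - gk t (p.1 - p.2)) := Measurable.fun_sub measurable_const m2
  have m4 : ∀ x : E n, Measurable (fun y : E n => gk t (x - y)) := fun x => gk_c t (by fun_prop)
  have m5 : ∀ x : E n, Measurable (fun y : E n => 1 - gk t (x - y)) := fun x =>
    Measurable.fun_sub measurable_const (m4 x)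
  have m6 : Measurable (fun x : E n => ∫⁻ y, (1 - gk t (x - y)) ∂ν) := m3.lintegral_prod_right'
  have m7 : Measurable (fun x : E n => ∫⁻ y, gk t (x - y) ∂ν) := m2.lintegral_prod_right'
  have e2 : ∀ x : E n, ∫⁻ y, ENNReal.ofReal (t ^ (-1 - s / 2)) * (1 - gk t (x - y)) ∂ν =
      ENNReal.ofReal (t ^ (-1 - s / 2)) * ∫⁻ y, (1 - gk t (x - y)) ∂ν := by
    intro x
    rw [lintegral_const_mul _ (m5 x)]
  simp_rw [e2]
  rw [lintegral_const_mul _ m6]
  congr 1
  have b1 : ∀ x : E n, ∫⁻ y, gk t (x - y) ∂ν ≤ 1 := by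
    intro x
    calc ∫⁻ y, gk t (x - y) ∂ν ≤ ∫⁻ _y, 1 ∂ν := lintegral_mono fun y => gk_le_one ht0.le _
      _ = 1 := by simp
  have e3 : ∀ x : E n, ∫⁻ y, (1 - gk t (x - y)) ∂ν = 1 - ∫⁻ y, gk t (x - y) ∂ν := by
    intro x
    rw [lintegral_sub (m4 x)]
    · simp
    · exact ne_top_of_le_ne_top ENNReal.one_ne_top (b1 x)
    · exact Eventually.of_forall fun y => gk_le_one ht0.le _
  simp_rw [e3]
  rw [lintegral_sub m7]
  · simp
  · apply ne_top_of_le_ne_top ENNReal.one_ne_top
    calc ∫⁻ x, ∫⁻ y, gk t (x - y) ∂ν ∂μ ≤ ∫⁻ _x, 1 ∂μ := lintegral_mono b1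
      _ = 1 := by simp
  · exact Eventually.of_forall fun x => b1 x

lemma arith {a b d : ℝ≥0∞} (ha : a ≤ 1) (hb : b ≤ 1) (hd : d ≤ 1) (h : 2 * d ≤ a + b) :
    (1 - a) + (1 - b) ≤ 2 * (1 - d) := by
  have ha' : a ≠ ∞ := ne_top_of_le_ne_top ENNReal.one_ne_top ha
  have hb' : b ≠ ∞ := ne_top_of_le_ne_top ENNReal.one_ne_top hb
  have hd' : d ≠ ∞ := ne_top_of_le_ne_top ENNReal.one_ne_top hd
  rw [ENNReal.mul_sub (fun _ _ => by norm_num), mul_one]
  apply ENNReal.le_sub_of_add_le_right (ENNReal.mul_ne_top (by norm_num) hd')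
  calc 1 - a + (1 - b) + 2 * d ≤ 1 - a + (1 - b) + (a + b) := by gcongr
    _ = (1 - a + a) + (1 - b + b) := by ring
    _ = 2 := by
        rw [tsub_add_cancel_of_le ha, tsub_add_cancel_of_le hb]
        norm_num

/-- negative definiteness of `|x-y|^s` -/
theorem pow_nd {s : ℝ} (hs : 0 < s) (hs2 : s < 2) (μ ν : Measure (E n)) [IsProbabilityMeasure μ]
    [IsProbabilityMeasure ν] :
    (∫⁻ x, ∫⁻ y, ENNReal.ofReal (‖x - y‖ ^ s) ∂μ ∂μ) + ∫⁻ x, ∫⁻ y, ENNReal.ofReal (‖x - y‖ ^ s) ∂ν ∂ν ≤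
      2 * ∫⁻ x, ∫⁻ y, ENNReal.ofReal (‖x - y‖ ^ s) ∂ν ∂μ := by
  have hW := WW_pos hs hs2
  have hW0 : ENNReal.ofReal (WW s) ≠ 0 := by
    rw [Ne, ENNReal.ofReal_eq_zero, not_le]; exact hW
  rw [← ENNReal.mul_le_mul_iff_right hW0 ENNReal.ofReal_ne_top, mul_add, mul_left_comm,
    pow_energy hs hs2, pow_energy hs hs2, pow_energy hs hs2]
  have mm : ∀ (μ ν : Measure (E n)) [IsProbabilityMeasure μ] [IsProbabilityMeasure ν],
      Measurable (fun t : ℝ => ENNReal.ofReal (t ^ (-1 - s / 2)) *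
        (1 - ∫⁻ x, ∫⁻ y, gk t (x - y) ∂ν ∂μ)) := by
    intro μ ν _ _
    apply Measurable.fun_mul (by fun_prop)
    apply Measurable.fun_sub measurable_const
    have m1 : Measurable (fun q : (ℝ × E n) × E n => gk q.1.1 (q.1.2 - q.2)) :=
      gk_c2 (by fun_prop) (by fun_prop)
    exact m1.lintegral_prod_right'.lintegral_prod_right'
  rw [← lintegral_add_left (mm μ μ), ← lintegral_const_mul _ (mm μ ν)]
  apply setLIntegral_mono' measurableSet_Ioi
  intro t ht
  have ht0 : (0:ℝ) < t := ht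
  have bd : ∀ (μ ν : Measure (E n)) [IsProbabilityMeasure μ] [IsProbabilityMeasure ν],
      ∫⁻ x, ∫⁻ y, gk t (x - y) ∂ν ∂μ ≤ 1 := by
    intro μ ν _ _
    calc ∫⁻ x, ∫⁻ y, gk t (x - y) ∂ν ∂μ ≤ ∫⁻ _x, ∫⁻ _y, 1 ∂ν ∂μ :=
          lintegral_mono fun x => lintegral_mono fun y => gk_le_one ht0.le _
      _ = 1 := by simp
  have hpd := gauss_pd ht0 μ ν 0
  simp only [add_zero] at hpd
  have := arith (bd μ μ) (bd ν ν) (bd μ ν) hpd
  calc _ = ENNReal.ofReal (t ^ (-1 - s / 2)) * ((1 - ∫⁻ x, ∫⁻ y, gk t (x - y) ∂μ ∂μ) +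
        (1 - ∫⁻ x, ∫⁻ y, gk t (x - y) ∂ν ∂ν)) := by rw [mul_add]
    _ ≤ ENNReal.ofReal (t ^ (-1 - s / 2)) * (2 * (1 - ∫⁻ x, ∫⁻ y, gk t (x - y) ∂ν ∂μ)) := by gcongr
    _ = _ := by ring

/-- the quadratic energy -/
theorem sq_energy (μ : Measure (E n)) [IsProbabilityMeasure μ] (hμ : μ (Metric.closedBall 0 1)ᶜ = 0) :
    ∫⁻ x, ∫⁻ y, ENNReal.ofReal (‖x - y‖ ^ 2) ∂μ ∂μ ≤ 2 := by
  have hae : ∀ᵐ x ∂μ, ‖x‖ ≤ 1 := by
    have : ∀ᵐ x ∂μ, x ∈ Metric.closedBall (0 : E n) 1 := by rw [ae_iff]; exact hμ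
    filter_upwards [this] with x hx
    simpa using hx
  have hid : Integrable (fun x : E n => x) μ := by
    refine Integrable.mono' (integrable_const (1:ℝ)) (by fun_prop) ?_
    exact hae
  have hin : ∀ v : E n, Integrable (fun y : E n => inner ℝ v y) μ := fun v => hid.const_inner v
  set m : E n := ∫ y, y ∂μ with hm
  have h1 : ∀ x : E n, ‖x‖ ≤ 1 → ∫⁻ y, ENNReal.ofReal (‖x - y‖ ^ 2) ∂μ ≤
      ENNReal.ofReal (2 - 2 * inner ℝ x m) := by
    intro x hx
    calc ∫⁻ y, ENNReal.ofReal (‖x - y‖ ^ 2) ∂μ ≤ ∫⁻ y, ENNReal.ofReal (2 - 2 * inner ℝ x y) ∂μ := by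
          apply lintegral_mono_ae
          filter_upwards [hae] with y hy
          apply ENNReal.ofReal_le_ofReal
          rw [@norm_sub_sq_real]
          have := norm_nonneg x
          have := norm_nonneg y
          nlinarith
      _ = ENNReal.ofReal (∫ y, (2 - 2 * inner ℝ x y) ∂μ) := by
          have hi : Integrable (fun y : E n => 2 - 2 * inner ℝ x y) μ :=
            (integrable_const _).sub ((hin x).const_mul 2)
          rw [ofReal_integral_eq_lintegral_ofReal hi]
          filter_upwards [hae] with y hy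
          have := real_inner_le_norm x y
          have := norm_nonneg x
          have := norm_nonneg y
          simp only [Pi.zero_apply]
          nlinarith
      _ = _ := by
          rw [integral_sub (integrable_const _) ((hin x).const_mul 2), integral_const_mul,
            integral_inner hid]
          simp [hm]
  have hmn : ‖m‖ ≤ 1 := by
    have := norm_integral_le_of_norm_le_const (μ := μ) (f := fun x : E n => x) (C := 1) hae
    simpa using this
  calc ∫⁻ x, ∫⁻ y, ENNReal.ofReal (‖x - y‖ ^ 2) ∂μ ∂μ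
      ≤ ∫⁻ x, ENNReal.ofReal (2 - 2 * inner ℝ x m) ∂μ := by
        apply lintegral_mono_ae
        filter_upwards [hae] with x hx
        exact h1 x hx
    _ = ENNReal.ofReal (∫ x, (2 - 2 * inner ℝ x m) ∂μ) := by
        rw [ofReal_integral_eq_lintegral_ofReal]
        · apply (integrable_const _).sub
          apply Integrable.const_mul
          exact hid.inner_const m
        · filter_upwards [hae] with x hx
          have := real_inner_le_norm x m
          have := norm_nonneg x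
          have := norm_nonneg m
          simp only [Pi.zero_apply]
          nlinarith
    _ ≤ ENNReal.ofReal 2 := by
        apply ENNReal.ofReal_le_ofReal
        rw [integral_sub (integrable_const _) ((hid.inner_const m).const_mul 2), integral_const_mul]
        have h5 : ∫ x, inner ℝ x m ∂μ = inner ℝ m m := by
          have := integral_inner (𝕜 := ℝ) hid m
          calc ∫ x, inner ℝ x m ∂μ = ∫ x, inner ℝ m x ∂μ := by
                apply integral_congr_ae
                exact Eventually.of_forall fun x => real_inner_comm m x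
            _ = _ := this
        rw [h5]
        have := real_inner_self_nonneg (x := m)
        simp
    _ = 2 := by simp

theorem pa5 : Pool.Agent.W784.RR.PA5 := by
  refine ⟨?_, ?_, fun t ht => cs_root ht, fun s hs => cs_pos hs⟩
  · intro s μ hs hs2 hμp hμ
    rcases hs2.eq_or_lt with h | h
    · subst h
      rw [cs_two]
      have := sq_energy μ hμ
      simpa [dist_eq_norm] using this
    · let I : ℂ ≃ₗᵢ[ℝ] E 2 := Complex.orthonormalBasisOneI.repr
      set σ : Measure (E 2) := sg.map I with hσ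
      have hI : Measurable I := I.continuous.measurable
      have hσp : IsProbabilityMeasure σ := Measure.isProbabilityMeasure_map hI.aemeasurable
      have hV : ∀ x : E 2, ∫⁻ y, ENNReal.ofReal (‖x - y‖ ^ s) ∂σ =
          ∫⁻ z, ENNReal.ofReal (‖I.symm x - z‖ ^ s) ∂sg := by
        intro x
        rw [hσ, lintegral_map (by fun_prop) hI]
        apply lintegral_congr
        intro z
        congr 2
        rw [← I.norm_map (I.symm x - z), map_sub, I.apply_symm_apply]
      have hVle : ∀ x : E 2, ‖x‖ ≤ 1 → ∫⁻ y, ENNReal.ofReal (‖x - y‖ ^ s) ∂σ ≤ ENNReal.ofReal (cs s) := by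
        intro x hx
        rw [hV]
        apply V_disc hs
        rw [I.symm.norm_map]
        exact hx
      have hE : ∫⁻ x, ∫⁻ y, ENNReal.ofReal (‖x - y‖ ^ s) ∂σ ∂σ = ENNReal.ofReal (cs s) := by
        simp_rw [hV]
        rw [hσ, lintegral_map _ hI]
        · simp only [I.symm_apply_apply]
          exact E_sg hs
        · have m1 : Measurable (fun p : E 2 × ℂ => ENNReal.ofReal (‖I.symm p.1 - p.2‖ ^ s)) := by
            have : Measurable I.symm := I.symm.continuous.measurable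
            fun_prop
          exact m1.lintegral_prod_right'
      have hae : ∀ᵐ x ∂μ, ‖x‖ ≤ 1 := by
        have : ∀ᵐ x ∂μ, x ∈ Metric.closedBall (0 : E 2) 1 := by rw [ae_iff]; exact hμ
        filter_upwards [this] with x hx
        simpa using hx
      have h1 := pow_nd hs h μ σ
      rw [hE] at h1
      have h2 : ∫⁻ x, ∫⁻ y, ENNReal.ofReal (‖x - y‖ ^ s) ∂σ ∂μ ≤ ENNReal.ofReal (cs s) := by
        calc ∫⁻ x, ∫⁻ y, ENNReal.ofReal (‖x - y‖ ^ s) ∂σ ∂μ ≤ ∫⁻ _x, ENNReal.ofReal (cs s) ∂μ := by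
              apply lintegral_mono_ae
              filter_upwards [hae] with x hx
              exact hVle x hx
          _ = _ := by simp
      have h3 : (∫⁻ x, ∫⁻ y, ENNReal.ofReal (‖x - y‖ ^ s) ∂μ ∂μ) + ENNReal.ofReal (cs s) ≤
          ENNReal.ofReal (cs s) + ENNReal.ofReal (cs s) := by
        calc _ ≤ 2 * ∫⁻ x, ∫⁻ y, ENNReal.ofReal (‖x - y‖ ^ s) ∂σ ∂μ := h1
          _ ≤ 2 * ENNReal.ofReal (cs s) := by gcongr
          _ = _ := two_mul _
      simp_rw [dist_eq_norm]
      exact (ENNReal.add_le_add_iff_right ENNReal.ofReal_ne_top).1 h3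
  · intro s μ hs hμp hμ
    have hae : ∀ᵐ x ∂μ, ‖x‖ ≤ 1 := by
      have : ∀ᵐ x ∂μ, x ∈ Metric.closedBall (0 : E 2) 1 := by rw [ae_iff]; exact hμ
      filter_upwards [this] with x hx
      simpa using hx
    calc ∫⁻ x, ∫⁻ y, ENNReal.ofReal (dist x y ^ s) ∂μ ∂μ
        ≤ ∫⁻ x, ∫⁻ y, ENNReal.ofReal (2 ^ (s - 2)) * ENNReal.ofReal (‖x - y‖ ^ 2) ∂μ ∂μ := by
          apply lintegral_mono_ae
          filter_upwards [hae] with x hx
          apply lintegral_mono_ae
          filter_upwards [hae] with y hy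
          rw [← ENNReal.ofReal_mul (by positivity), dist_eq_norm]
          apply ENNReal.ofReal_le_ofReal
          have hd : ‖x - y‖ ≤ 2 := by
            have := norm_sub_le x y
            linarith
          rcases (norm_nonneg (x - y)).eq_or_lt with h0 | h0
          · rw [← h0, Real.zero_rpow (by linarith)]
            simp
          · have e : ‖x - y‖ ^ s = ‖x - y‖ ^ (s - 2) * ‖x - y‖ ^ 2 := by
              rw [← Real.rpow_two, ← Real.rpow_add h0]
              congr 1
              ring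
            rw [e]
            have := Real.rpow_le_rpow h0.le hd (show 0 ≤ s - 2 by linarith)
            gcongr
      _ = ENNReal.ofReal (2 ^ (s - 2)) * ∫⁻ x, ∫⁻ y, ENNReal.ofReal (‖x - y‖ ^ 2) ∂μ ∂μ := by
          have m0 : Measurable (fun x : E 2 => ∫⁻ y, ENNReal.ofReal (‖x - y‖ ^ 2) ∂μ) := by
            have : Measurable (fun p : E 2 × E 2 => ENNReal.ofReal (‖p.1 - p.2‖ ^ 2)) := by fun_prop
            exact this.lintegral_prod_right'
          rw [← lintegral_const_mul _ m0]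
          apply lintegral_congr
          intro x
          rw [lintegral_const_mul _ (by fun_prop)]
      _ ≤ ENNReal.ofReal (2 ^ (s - 2)) * 2 := by
          gcongr
          exact sq_energy μ hμ
      _ = ENNReal.ofReal (2 ^ (s - 1)) := by
          have : (2:ℝ≥0∞) = ENNReal.ofReal 2 := by simp
          rw [this, ← ENNReal.ofReal_mul (by positivity)]
          congr 1
          have h3 := Real.rpow_add (show (0:ℝ) < 2 by norm_num) (s - 2) 1
          rw [Real.rpow_one] at h3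
          rw [← h3]
          congr 1
          ring

end Pool.Agent.W688.RR
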