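import Pool.Agent.W784.RR.DefsC
import Pool.Agent.Helper88.RB.P_exists_bdd
import Pool.Agent.W688.RR_Gauss

/-!
PMoll: mollification does not increase Riesz and logarithmic energies.
-/

set_option autoImplicit false

namespace Pool.Agent.W688.RR

open MeasureTheory Set Filter Topology
open scoped ENNReal NNReal
open Pool.Agent.Helper88.RB (E PE En riesz_fin)

variable {n : ℕ}

/-- logarithmic kernel -/
noncomputable def lg (R : ℝ) (z : E n) : ℝ≥0∞ :=
  if z = 0 then (⊤ : ENNReal) else ENNReal.ofReal (Real.log (R / ‖z‖))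

lemma lg_meas (R : ℝ) : Measurable (lg R : E n → ℝ≥0∞) := by
  unfold lg
  apply Measurable.ite (measurableSet_singleton 0) measurable_const
  fun_prop

lemma exp_lint {t a b : ℝ} (ht : 0 < t) (hab : a ≤ b) :
    ∫⁻ u in Ioc a b, ENNReal.ofReal (Real.exp (-(t * u))) =
      ENNReal.ofReal ((Real.exp (-(t * a)) - Real.exp (-(t * b))) / t) := by
  have hcont : Continuous (fun u : ℝ => Real.exp (-(t * u))) := by fun_prop
  have hii : IntervalIntegrable (fun u : ℝ => Real.exp (-(t * u))) volume a b :=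
    hcont.intervalIntegrable a b
  rw [← ofReal_integral_eq_lintegral_ofReal ((intervalIntegrable_iff_integrableOn_Ioc_of_le hab).1 hii)
    (Eventually.of_forall fun _ => (Real.exp_pos _).le), ← intervalIntegral.integral_of_le hab]
  congr 1
  have hd : ∀ u ∈ uIcc a b, HasDerivAt (fun u : ℝ => -(Real.exp (-(t * u)) / t)) (Real.exp (-(t * u))) u := by
    intro u _
    have h1 : HasDerivAt (fun u : ℝ => -(t * u)) (-t) u := by
      have h0 := (hasDerivAt_id u).const_mul (-t)
      simpa [neg_mul] using h0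
    have h2 := (h1.exp.div_const t).neg
    refine h2.congr_deriv ?_
    field_simp
  rw [intervalIntegral.integral_eq_sub_of_hasDerivAt hd hii]
  ring

lemma exp_lint_Ioi {u : ℝ} (hu : 0 < u) :
    ∫⁻ t in Ioi (0:ℝ), ENNReal.ofReal (Real.exp (-(t * u))) = ENNReal.ofReal (1 / u) := by
  have h1 := Real.integral_rpow_mul_exp_neg_mul_Ioi (a := 1) (r := u) one_pos hu
  rw [Real.Gamma_one, mul_one, Real.rpow_one] at h1
  have h2 : ∀ t : ℝ, t ^ ((1:ℝ) - 1) * Real.exp (-(u * t)) = Real.exp (-(t * u)) := by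
    intro t; rw [sub_self, Real.rpow_zero, one_mul, mul_comm]
  simp_rw [h2] at h1
  rw [← ofReal_integral_eq_lintegral_ofReal _ (Eventually.of_forall fun _ => (Real.exp_pos _).le), h1]
  apply Integrable.of_integral_ne_zero
  rw [h1]; positivity

lemma inv_lint {a b : ℝ} (ha : 0 < a) (hab : a ≤ b) :
    ∫⁻ u in Ioc a b, ENNReal.ofReal (1 / u) = ENNReal.ofReal (Real.log (b / a)) := by
  have hb : 0 < b := ha.trans_le hab
  have hii : IntervalIntegrable (fun u : ℝ => 1 / u) volume a b := by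
    apply ContinuousOn.intervalIntegrable
    intro u hu
    rw [uIcc_of_le hab] at hu
    have : u ≠ 0 := (ha.trans_le hu.1).ne'
    exact (continuousAt_const.div continuousAt_id this).continuousWithinAt
  rw [← integral_one_div_of_pos ha hb, intervalIntegral.integral_of_le hab,
    ofReal_integral_eq_lintegral_ofReal ((intervalIntegrable_iff_integrableOn_Ioc_of_le hab).1 hii)]
  filter_upwards [self_mem_ae_restrict measurableSet_Ioc] with u hu
  exact (one_div_pos.2 (ha.trans hu.1)).le

lemma inv_lint_zero {b : ℝ} (hb : 0 < b) :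
    ∫⁻ u in Ioc 0 b, ENNReal.ofReal (1 / u) = ∞ := by
  by_contra hne
  have hint : IntegrableOn (fun u : ℝ => 1 / u) (Ioc 0 b) := by
    refine ⟨by fun_prop, ?_⟩
    rw [hasFiniteIntegral_iff_ofReal]
    · exact lt_top_iff_ne_top.2 hne
    · filter_upwards [self_mem_ae_restrict measurableSet_Ioc] with u hu
      exact (one_div_pos.2 hu.1).le
  have h2 := (intervalIntegrable_iff_integrableOn_Ioc_of_le hb.le).2 hint
  simp only [one_div] at h2
  rw [intervalIntegrable_inv_iff] at h2
  rcases h2 with h | h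
  · exact hb.ne h
  · exact h left_mem_uIcc

/-- weights -/
noncomputable def aw (t : ℝ) : ℝ≥0∞ := ENNReal.ofReal (1 / (2 * t))

/-- the constant subtracted -/
noncomputable def bw (R t : ℝ) : ℝ≥0∞ := ENNReal.ofReal (Real.exp (-(t * R ^ 2)))

lemma bw_ne_top (R t : ℝ) : bw R t ≠ ∞ := ENNReal.ofReal_ne_top

lemma frul {R : ℝ} (hR : 0 < R) (z : E n) (hz : ‖z‖ ≤ R) :
    lg R z = ∫⁻ t in Ioi (0:ℝ), aw t * (gk t z - bw R t) := by
  have hab : ‖z‖ ^ 2 ≤ R ^ 2 := pow_le_pow_left₀ (norm_nonneg z) hz 2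
  have h1 : ∫⁻ t in Ioi (0:ℝ), aw t * (gk t z - bw R t) =
      ∫⁻ t in Ioi (0:ℝ), ∫⁻ u in Ioc (‖z‖ ^ 2) (R ^ 2), ENNReal.ofReal (1 / 2) *
        ENNReal.ofReal (Real.exp (-(t * u))) := by
    apply setLIntegral_congr_fun measurableSet_Ioi
    intro t ht
    simp only
    rw [lintegral_const_mul _ (by fun_prop), exp_lint ht hab]
    unfold aw gk bw
    rw [← ENNReal.ofReal_sub _ (Real.exp_pos _).le, ← ENNReal.ofReal_mul, ← ENNReal.ofReal_mul (by norm_num)]
    · congr 1
      have : t ≠ 0 := (ne_of_gt ht)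
      field_simp
    · have : (0:ℝ) < t := ht
      positivity
  rw [h1, lintegral_lintegral_swap (by
    apply Measurable.aemeasurable
    fun_prop)]
  have h2 : ∫⁻ u in Ioc (‖z‖ ^ 2) (R ^ 2), ∫⁻ t in Ioi (0:ℝ), ENNReal.ofReal (1 / 2) *
      ENNReal.ofReal (Real.exp (-(t * u))) = ENNReal.ofReal (1 / 2) *
      ∫⁻ u in Ioc (‖z‖ ^ 2) (R ^ 2), ENNReal.ofReal (1 / u) := by
    rw [← lintegral_const_mul _ (by fun_prop)]
    apply setLIntegral_congr_fun measurableSet_Ioc
    intro u hu
    simp only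
    rw [lintegral_const_mul _ (by fun_prop), exp_lint_Ioi (lt_of_le_of_lt (sq_nonneg _) hu.1)]
  rw [h2]
  unfold lg
  by_cases h0 : z = 0
  · rw [if_pos h0, h0, norm_zero]
    have : (0:ℝ) ^ 2 = 0 := by norm_num
    rw [this, inv_lint_zero (by positivity), ENNReal.mul_top]
    simp
  · rw [if_neg h0]
    have hz' : 0 < ‖z‖ := norm_pos_iff.2 h0
    rw [inv_lint (by positivity) hab, ← ENNReal.ofReal_mul (by norm_num)]
    congr 1
    rw [← div_pow, Real.log_pow]
    push_cast
    ring

lemma gk_lower {R t : ℝ} (ht : 0 < t) (z : E n) (hz : ‖z‖ ≤ R) : bw R t ≤ gk t z := by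
  unfold bw gk
  apply ENNReal.ofReal_le_ofReal
  apply Real.exp_le_exp.2
  have : ‖z‖ ^ 2 ≤ R ^ 2 := pow_le_pow_left₀ (norm_nonneg z) hz 2
  nlinarith

lemma lg_energy {R : ℝ} (hR : 0 < R) (μ : Measure (E n)) [IsProbabilityMeasure μ] (h : E n)
    (hae : ∀ᵐ x ∂μ, ∀ᵐ y ∂μ, ‖x + h - y‖ ≤ R) :
    ∫⁻ x, ∫⁻ y, lg R (x + h - y) ∂μ ∂μ =
      ∫⁻ t in Ioi (0:ℝ), aw t * ((∫⁻ x, ∫⁻ y, gk t (x + h - y) ∂μ ∂μ) - bw R t) := by
  have m1 : Measurable aw := by unfold aw; fun_prop
  have m2 : Measurable (bw R) := by unfold bw; fun_prop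
  have e1 : ∫⁻ x, ∫⁻ y, lg R (x + h - y) ∂μ ∂μ = ∫⁻ x, ∫⁻ y, (∫⁻ t in Ioi (0:ℝ),
      aw t * (gk t (x + h - y) - bw R t)) ∂μ ∂μ := by
    apply lintegral_congr_ae
    filter_upwards [hae] with x hx
    apply lintegral_congr_ae
    filter_upwards [hx] with y hy
    exact frul hR _ hy
  rw [e1, mix_tonelli μ μ (fun t x y => aw t * (gk t (x + h - y) - bw R t)) (by
    apply Measurable.fun_mul
    · exact m1.comp measurable_fst
    · apply Measurable.fun_sub
      · exact gk_c2 (by fun_prop) (by fun_prop)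
      · exact m2.comp measurable_fst)]
  apply setLIntegral_congr_fun measurableSet_Ioi
  intro t ht
  simp only
  have m3 : Measurable (fun p : E n × E n => gk t (p.1 + h - p.2)) := gk_c t (by fun_prop)
  have m4 : Measurable (fun p : E n × E n => gk t (p.1 + h - p.2) - bw R t) :=
    Measurable.fun_sub m3 measurable_const
  have m5 : ∀ x : E n, Measurable (fun y : E n => gk t (x + h - y) - bw R t) := fun x =>
    Measurable.fun_sub (gk_c t (by fun_prop)) measurable_const
  have e2 : ∀ x : E n, ∫⁻ y, aw t * (gk t (x + h - y) - bw R t) ∂μ =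
      aw t * ∫⁻ y, (gk t (x + h - y) - bw R t) ∂μ := by
    intro x
    rw [lintegral_const_mul _ (m5 x)]
  have m6 : Measurable (fun x : E n => ∫⁻ y, (gk t (x + h - y) - bw R t) ∂μ) :=
    m4.lintegral_prod_right'
  simp_rw [e2]
  rw [lintegral_const_mul _ m6]
  congr 1
  have e3 : ∀ᵐ x ∂μ, ∫⁻ y, (gk t (x + h - y) - bw R t) ∂μ = (∫⁻ y, gk t (x + h - y) ∂μ) - bw R t := by
    filter_upwards [hae] with x hx
    rw [lintegral_sub' measurable_const.aemeasurable]
    · simp
    · simp [bw_ne_top]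
    · filter_upwards [hx] with y hy
      exact gk_lower ht _ hy
  rw [lintegral_congr_ae e3, lintegral_sub' measurable_const.aemeasurable]
  · simp
  · simp [bw_ne_top]
  · filter_upwards [hae] with x hx
    calc bw R t = ∫⁻ y, bw R t ∂μ := by simp
      _ ≤ _ := by
        apply lintegral_mono_ae
        filter_upwards [hx] with y hy
        exact gk_lower ht _ hy

theorem lg_shift {R : ℝ} (hR : 0 < R) (μ : Measure (E n)) [IsProbabilityMeasure μ] (h : E n)
    (hae : ∀ᵐ x ∂μ, ∀ᵐ y ∂μ, ‖x + h - y‖ ≤ R) (hae0 : ∀ᵐ x ∂μ, ∀ᵐ y ∂μ, ‖x - y‖ ≤ R) :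
    ∫⁻ x, ∫⁻ y, lg R (x + h - y) ∂μ ∂μ ≤ ∫⁻ x, ∫⁻ y, lg R (x - y) ∂μ ∂μ := by
  have h0 := lg_energy hR μ 0 (by simpa using hae0)
  simp only [add_zero] at h0
  rw [lg_energy hR μ h hae, h0]
  apply setLIntegral_mono' measurableSet_Ioi
  intro t ht
  exact mul_le_mul' le_rfl (tsub_le_tsub_right (gauss_shift ht μ h) _)

/-- energies of convolutions -/
lemma conv_energy (μ η : Measure (E n)) [SFinite μ] [SFinite η] (k : E n → ℝ≥0∞) (hk : Measurable k) :
    ∫⁻ z, ∫⁻ z', k (z - z') ∂((μ.prod η).map (fun p => p.1 + p.2)) ∂((μ.prod η).map (fun p => p.1 + p.2)) =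
      ∫⁻ u, ∫⁻ v, ∫⁻ x, ∫⁻ y, k (x + (u - v) - y) ∂μ ∂μ ∂η ∂η := by
  have hadd : Measurable (fun p : E n × E n => p.1 + p.2) := by fun_prop
  have hk2 : Measurable (fun p : E n × E n => k (p.1 - p.2)) := hk.comp (by fun_prop)
  have h1 : ∀ f : E n → ℝ≥0∞, Measurable f →
      ∫⁻ z, f z ∂((μ.prod η).map (fun p => p.1 + p.2)) = ∫⁻ u, ∫⁻ x, f (x + u) ∂μ ∂η := by
    intro f hf
    rw [lintegral_map hf hadd, lintegral_prod_symm' (f := fun p => f (p.1 + p.2)) (hf.comp hadd)]
  have hsf : SFinite ((μ.prod η).map (fun p => p.1 + p.2)) := inferInstance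
  rw [h1 _ hk2.lintegral_prod_right']
  apply lintegral_congr
  intro u
  have h2 : ∀ x : E n, ∫⁻ z', k (x + u - z') ∂((μ.prod η).map (fun p => p.1 + p.2)) =
      ∫⁻ v, ∫⁻ y, k (x + u - (y + v)) ∂μ ∂η := by
    intro x
    exact h1 (fun z' => k (x + u - z')) (hk.comp (by fun_prop))
  simp_rw [h2]
  rw [lintegral_lintegral_swap]
  · apply lintegral_congr
    intro v
    apply lintegral_congr
    intro x
    apply lintegral_congr
    intro y
    congr 1
    abel
  · apply Measurable.aemeasurable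
    have : Measurable (fun q : (E n × E n) × E n => k (q.1.1 + u - (q.2 + q.1.2))) :=
      hk.comp (by fun_prop)
    exact this.lintegral_prod_right'

theorem pmoll : Pool.Agent.W784.RR.PMoll := by
  intro n K μ ρ hn hK hμ hμK hρ
  have hμp : IsProbabilityMeasure μ := ⟨hμ⟩
  set B : Set (E n) := Metric.ball 0 ρ with hB
  have hB0 : volume B ≠ 0 := (Metric.measure_ball_pos volume 0 hρ).ne'
  have hBt : volume B ≠ ∞ := (Metric.isBounded_ball.measure_lt_top).ne
  have hBm : MeasurableSet B := Metric.isOpen_ball.measurableSet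
  set η : Measure (E n) := (volume B)⁻¹ • volume.restrict B with hη
  have hηp : IsProbabilityMeasure η := ⟨by
    rw [hη, Measure.smul_apply, Measure.restrict_apply_univ, smul_eq_mul,
      ENNReal.inv_mul_cancel hB0 hBt]⟩
  have hηB : ∀ᵐ u ∂η, ‖u‖ < ρ := by
    rw [hη]
    apply Measure.ae_smul_measure
    filter_upwards [self_mem_ae_restrict hBm] with u hu
    simpa [hB] using hu
  have hKm : MeasurableSet K := hK.isClosed.measurableSet
  have hμK' : ∀ᵐ x ∂μ, x ∈ K := by
    rw [ae_iff]; exact hμK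
  have hadd : Measurable (fun p : E n × E n => p.1 + p.2) := by fun_prop
  set μ' : Measure (E n) := (μ.prod η).map (fun p => p.1 + p.2) with hμ'
  have hthick : ∀ x ∈ K, ∀ u : E n, ‖u‖ < ρ → x + u ∈ Metric.cthickening ρ K := by
    intro x hx u hu
    apply Metric.mem_cthickening_of_dist_le (x + u) x ρ K hx
    rw [dist_eq_norm]
    simpa using hu.le
  have hlin : ∀ f : E n → ℝ≥0∞, Measurable f → ∫⁻ z, f z ∂μ' = ∫⁻ x, ∫⁻ u, f (x + u) ∂η ∂μ := by
    intro f hf
    rw [hμ', lintegral_map hf hadd, lintegral_prod (f := fun p => f (p.1 + p.2)) (hf.comp hadd).aemeasurable]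
  refine ⟨μ', ?_, ?_, ?_, ?_, ?_⟩
  · rw [hμ', Measure.map_apply hadd MeasurableSet.univ]
    simp
  · have hcm : MeasurableSet (Metric.cthickening ρ K)ᶜ := Metric.isClosed_cthickening.measurableSet.compl
    rw [← lintegral_indicator_one hcm, hlin _ (measurable_one.indicator hcm)]
    rw [lintegral_eq_zero_iff' (by
      apply Measurable.aemeasurable
      have : Measurable (fun p : E n × E n => (Metric.cthickening ρ K)ᶜ.indicator (1 : E n → ℝ≥0∞) (p.1 + p.2)) :=
        (measurable_one.indicator hcm).comp hadd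
      exact this.lintegral_prod_right')]
    filter_upwards [hμK'] with x hx
    simp only [Pi.zero_apply]
    rw [lintegral_eq_zero_iff' (by
      apply Measurable.aemeasurable
      exact (measurable_one.indicator hcm).comp (by fun_prop))]
    filter_upwards [hηB] with u hu
    simp only [Pi.zero_apply]
    apply indicator_of_notMem
    intro hc
    exact hc (hthick x hx u hu)
  · intro s hs hsn
    set J : ℝ≥0∞ := ∫⁻ y in Metric.ball (0 : E n) 1, (ENNReal.ofReal ‖y‖) ^ (-s) with hJ
    have hJt : J ≠ ∞ := riesz_fin hs hsn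
    refine ⟨(volume B)⁻¹ * (J + volume B), ?_, ?_⟩
    · exact ENNReal.mul_ne_top (ENNReal.inv_ne_top.2 hB0) (ENNReal.add_ne_top.2 ⟨hJt, hBt⟩)
    · intro x
      unfold PE
      have hm : Measurable (fun y : E n => (ENNReal.ofReal (dist x y)) ^ (-s)) := by fun_prop
      rw [hlin _ hm]
      calc ∫⁻ a, ∫⁻ u, (ENNReal.ofReal (dist x (a + u))) ^ (-s) ∂η ∂μ
          ≤ ∫⁻ a, (volume B)⁻¹ * (J + volume B) ∂μ := by
            apply lintegral_mono
            intro a
            simp only
            rw [hη, lintegral_smul_measure, smul_eq_mul]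
            apply mul_le_mul' le_rfl
            have hpt : ∀ u : E n, (ENNReal.ofReal (dist x (a + u))) ^ (-s) ≤
                (Metric.ball (0 : E n) 1).indicator (fun y => (ENNReal.ofReal ‖y‖) ^ (-s)) (u - (x - a)) + 1 := by
              intro u
              have e : dist x (a + u) = ‖u - (x - a)‖ := by
                rw [dist_comm, dist_eq_norm]; congr 1; abel
              by_cases h : u - (x - a) ∈ Metric.ball (0 : E n) 1
              · rw [indicator_of_mem h, e]
                exact le_self_add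
              · rw [indicator_of_notMem h, zero_add, e]
                have h1 : 1 ≤ ‖u - (x - a)‖ := by simpa using h
                rw [ENNReal.rpow_neg, ENNReal.inv_le_one]
                apply ENNReal.one_le_rpow _ hs
                rw [ENNReal.one_le_ofReal]; exact h1
            calc ∫⁻ u in B, (ENNReal.ofReal (dist x (a + u))) ^ (-s)
                ≤ ∫⁻ u in B, ((Metric.ball (0 : E n) 1).indicator
                  (fun y => (ENNReal.ofReal ‖y‖) ^ (-s)) (u - (x - a)) + 1) := lintegral_mono hpt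
              _ = (∫⁻ u in B, (Metric.ball (0 : E n) 1).indicator
                  (fun y => (ENNReal.ofReal ‖y‖) ^ (-s)) (u - (x - a))) + volume B := by
                  rw [lintegral_add_right _ measurable_const]
                  simp
              _ ≤ (∫⁻ u, (Metric.ball (0 : E n) 1).indicator
                  (fun y => (ENNReal.ofReal ‖y‖) ^ (-s)) (u - (x - a))) + volume B := by
                  gcongr
                  exact Measure.restrict_le_self
              _ = J + volume B := by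
                  rw [lintegral_sub_right_eq_self (fun u => (Metric.ball (0 : E n) 1).indicator
                    (fun y => (ENNReal.ofReal ‖y‖) ^ (-s)) u), lintegral_indicator Metric.isOpen_ball.measurableSet]
        _ = _ := by simp
  · intro s hs
    have e : ∀ ν : Measure (E n), En s ν = ∫⁻ x, ∫⁻ y, rz s (x - y) ∂ν ∂ν := by
      intro ν
      unfold En rz
      simp_rw [dist_eq_norm]
    rw [e, e, hμ', conv_energy μ η _ (rz_meas s)]
    calc ∫⁻ u, ∫⁻ v, ∫⁻ x, ∫⁻ y, rz s (x + (u - v) - y) ∂μ ∂μ ∂η ∂η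
        ≤ ∫⁻ u, ∫⁻ v, ∫⁻ x, ∫⁻ y, rz s (x - y) ∂μ ∂μ ∂η ∂η :=
          lintegral_mono fun u => lintegral_mono fun v => rz_shift hs μ (u - v)
      _ = _ := by simp
  · intro R hR hdist
    have e : ∀ ν : Measure (E n), ∫⁻ x, ∫⁻ y, (if x = y then (⊤ : ENNReal) else
        ENNReal.ofReal (Real.log (R / dist x y))) ∂ν ∂ν = ∫⁻ x, ∫⁻ y, lg R (x - y) ∂ν ∂ν := by
      intro ν
      unfold lg
      simp_rw [dist_eq_norm, sub_eq_zero]
    rw [e, e, hμ', conv_energy μ η _ (lg_meas R)]
    have hae0 : ∀ᵐ x ∂μ, ∀ᵐ y ∂μ, ‖x - y‖ ≤ R := by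
      filter_upwards [hμK'] with x hx
      filter_upwards [hμK'] with y hy
      rw [← dist_eq_norm]
      exact hdist x (Metric.self_subset_cthickening K hx) y (Metric.self_subset_cthickening K hy)
    calc ∫⁻ u, ∫⁻ v, ∫⁻ x, ∫⁻ y, lg R (x + (u - v) - y) ∂μ ∂μ ∂η ∂η
        ≤ ∫⁻ u, ∫⁻ v, ∫⁻ x, ∫⁻ y, lg R (x - y) ∂μ ∂μ ∂η ∂η := by
          apply lintegral_mono_ae
          filter_upwards [hηB] with u hu
          apply lintegral_mono_ae
          filter_upwards [hηB] with v hv
          apply lg_shift hR μ (u - v) _ hae0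
          filter_upwards [hμK'] with x hx
          filter_upwards [hμK'] with y hy
          have := hdist _ (hthick x hx u hu) _ (hthick y hy v hv)
          rw [dist_eq_norm] at this
          have e2 : x + (u - v) - y = x + u - (y + v) := by abel
          rw [e2]; exact this
      _ = _ := by simp

end Pool.Agent.W688.RR
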