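import Pool.Agent.W784.RR.Defs

/-!
PTest0: test inequality at a point of the plane, by inversion.
-/

set_option autoImplicit false

namespace Pool.Agent.W688.RR.T0

open MeasureTheory Set Filter Topology
open scoped ENNReal NNReal
open Pool.Agent.Helper88.RB (E PE)
open Pool.Agent.W784.RR
open EuclideanGeometry (inversion)

variable {n : ℕ}

lemma inv_meas (c : E n) : Measurable (inversion c 1) := by
  have : (inversion c 1 : E n → E n) = fun x => (1 / dist x c) ^ 2 • (x - c) + c := by
    ext1 x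
    rfl
  rw [this]
  fun_prop

lemma inv_ne {c x : E n} (hx : x ≠ c) : inversion c 1 x ≠ c := by
  rw [Ne, EuclideanGeometry.inversion_eq_center one_ne_zero]
  exact hx

lemma inv_id {w0 z w : E n} (hz : z ≠ w0) (hw : w ≠ w0) :
    dist (inversion w0 1 z) w * dist z w0 = dist z (inversion w0 1 w) * dist w w0 := by
  have h1 : dist (inversion w0 1 z) w = dist (inversion w0 1 z) (inversion w0 1 (inversion w0 1 w)) := by
    rw [EuclideanGeometry.inversion_inversion w0 one_ne_zero]
  rw [h1, EuclideanGeometry.dist_inversion_inversion hz (inv_ne hw), EuclideanGeometry.dist_inversion_center]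
  have h2 : dist z w0 ≠ 0 := by rwa [Ne, dist_eq_zero]
  have h3 : dist w w0 ≠ 0 := by rwa [Ne, dist_eq_zero]
  field_simp

lemma Ec_mono (hC : PCalc) {q : ℝ} (hq : 0 < q) (hqn : q < n) {a b : ℝ} (ha : 0 ≤ a) (hab : a ≤ b) :
    Ec n q a ≤ Ec n q b := by
  obtain ⟨-, -, -, h1, -, hmono, hb, -⟩ := hC n q hq hqn
  rcases le_total 1 b with h | h
  · rw [h1 b h]
    exact (hb a ha).2
  · exact hmono.monotoneOn ⟨ha, hab.trans h⟩ ⟨ha.trans hab, h⟩ hab

lemma PE_scale {q ρ : ℝ} (hρ : 0 < ρ) (c1 : E n) (ω : Measure (E n)) (z : E n) :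
    PE q ((ENNReal.ofReal ρ) ^ q • ω.map (fun w => c1 + ρ • w)) z = PE q ω (ρ⁻¹ • (z - c1)) := by
  have hρ0 : ENNReal.ofReal ρ ≠ 0 := by rw [Ne, ENNReal.ofReal_eq_zero, not_le]; exact hρ
  have hρt : ENNReal.ofReal ρ ≠ ∞ := ENNReal.ofReal_ne_top
  unfold PE
  rw [lintegral_smul_measure, lintegral_map (by fun_prop) (by fun_prop), smul_eq_mul,
    ← lintegral_const_mul' _ _ (ENNReal.rpow_ne_top_of_ne_zero hρ0 hρt)]
  apply lintegral_congr
  intro w
  have e : dist z (c1 + ρ • w) = ρ * dist (ρ⁻¹ • (z - c1)) w := by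
    rw [dist_eq_norm, dist_eq_norm]
    have : z - (c1 + ρ • w) = ρ • (ρ⁻¹ • (z - c1) - w) := by
      rw [smul_sub, smul_smul, mul_inv_cancel₀ hρ.ne', one_smul]
      abel
    rw [this, norm_smul, Real.norm_of_nonneg hρ.le]
  rw [e, ENNReal.ofReal_mul hρ.le, ENNReal.mul_rpow_of_ne_top hρt ENNReal.ofReal_ne_top, ← mul_assoc,
    ← ENNReal.rpow_add _ _ hρ0 hρt, add_neg_cancel, ENNReal.rpow_zero, one_mul]

theorem key (hC : PCalc) (hF : PFlat) {q : ℝ} (hn : 1 ≤ n) (hq : 0 < q) (hnq : (n : ℝ) - 2 < q)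
    (hqn : q < n) (ν : Measure (E n)) [IsFiniteMeasure ν] (hν : ∀ z, PE q ν z ≤ 1) {w0 c : E n}
    (hc : w0 ≠ c) {r r' : ℝ} (hr : 0 < r) (hrr : r < r') (hr1 : r' < 1)
    (hnull : ν {z | dist z c = r' * dist z w0} = 0) :
    ∫⁻ z, (ENNReal.ofReal (dist z w0)) ^ (-q) *
      ENNReal.ofReal (Ec n q (r * dist z w0 / dist z c)) ∂ν ≤ ENNReal.ofReal (Ec n q r') := by
  obtain ⟨ω, hωf, hωs, hωi, hωo, -⟩ := hF n q hn hq hnq hqn
  have hr0 : 0 < r' := hr.trans hrr
  have hcd : 0 < dist c w0 := by rw [dist_pos]; exact hc.symm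
  have hatom : ∀ x : E n, ∀ᵐ z ∂ν, z ≠ x := by
    intro x
    rw [ae_iff]
    simp only [not_not]
    by_contra hne
    have h1 : ∞ ≤ PE q ν x := by
      calc ∞ = ∫⁻ z in {x}, ∞ ∂ν := by
            rw [setLIntegral_const]
            exact (ENNReal.top_mul hne).symm
        _ = ∫⁻ z in {x}, (ENNReal.ofReal (dist x z)) ^ (-q) ∂ν := by
            apply setLIntegral_congr_fun (measurableSet_singleton x)
            intro z hz
            rw [mem_singleton_iff] at hz
            subst hz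
            simp only
            rw [dist_self, ENNReal.ofReal_zero, ENNReal.zero_rpow_of_neg (by linarith)]
        _ ≤ PE q ν x := setLIntegral_le_lintegral _ _
    exact absurd (h1.trans (hν x)) (by simp)
  set J : E n → E n := inversion w0 1 with hJ
  have hJm : Measurable J := inv_meas w0
  set c1 : E n := J c with hc1
  have hc1d : dist c1 w0 = 1 / dist c w0 := by
    rw [hc1, hJ, EuclideanGeometry.dist_inversion_center, one_pow]
  set ρ : ℝ := r' / dist c w0 with hρ
  have hρ0 : 0 < ρ := by positivity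
  set ω' : Measure (E n) := (ENNReal.ofReal ρ) ^ q • ω.map (fun w => c1 + ρ • w) with hω'
  have hρt : (ENNReal.ofReal ρ) ^ q ≠ ∞ := ENNReal.rpow_ne_top_of_nonneg hq.le ENNReal.ofReal_ne_top
  have hfin : IsFiniteMeasure ω' := ⟨by
    rw [hω', Measure.smul_apply, smul_eq_mul]
    exact ENNReal.mul_lt_top (lt_top_iff_ne_top.2 hρt) (measure_lt_top _ _)⟩
  have hPE : ∀ z, PE q ω' z = PE q ω (ρ⁻¹ • (z - c1)) := fun z => PE_scale hρ0 c1 ω z
  have hw0 : ∀ᵐ w ∂ω', w ≠ w0 := by
    have h1 : ∀ᵐ w ∂ω, w ∈ Metric.closedBall (0 : E n) 1 := by rw [ae_iff]; exact hωs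
    rw [hω']
    apply Measure.ae_smul_measure
    refine (ae_map_iff (μ := ω) (f := fun w => c1 + ρ • w) (p := fun x => x ≠ w0) (by fun_prop)
      (measurableSet_singleton w0).compl).2 ?_
    filter_upwards [h1] with w hw
    intro h
    have hw' : ‖w‖ ≤ 1 := by simpa using hw
    have h2 : dist c1 w0 = ρ * ‖w‖ := by
      rw [← h, dist_eq_norm]
      have : c1 - (c1 + ρ • w) = -(ρ • w) := by abel
      rw [this, norm_neg, norm_smul, Real.norm_of_nonneg hρ0.le]
    rw [hc1d] at h2
    have h3 : ρ * ‖w‖ ≤ ρ := by nlinarith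
    have h4 : ρ < 1 / dist c w0 := by
      rw [hρ]
      gcongr
    linarith
  have hmul : ∀ a b : ℝ, 0 ≤ a → (ENNReal.ofReal (a * b)) ^ (-q) =
      (ENNReal.ofReal a) ^ (-q) * (ENNReal.ofReal b) ^ (-q) := by
    intro a b ha
    rw [ENNReal.ofReal_mul ha, ENNReal.mul_rpow_of_ne_top ENNReal.ofReal_ne_top ENNReal.ofReal_ne_top]
  -- lower bound
  have hlow : ∀ᵐ z ∂ν, (ENNReal.ofReal (dist z w0)) ^ (-q) *
      ENNReal.ofReal (Ec n q (r * dist z w0 / dist z c)) ≤
      ∫⁻ w, (ENNReal.ofReal (dist (J z) w)) ^ (-q) * (ENNReal.ofReal (dist z w0)) ^ (-q) ∂ω' := by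
    have hnull' : ∀ᵐ z ∂ν, dist z c ≠ r' * dist z w0 := by
      rw [ae_iff]
      simpa using hnull
    filter_upwards [hatom w0, hatom c, hnull'] with z hz hzc hzn
    have hzd : 0 < dist z w0 := dist_pos.2 hz
    have hzcd : 0 < dist z c := dist_pos.2 hzc
    have e1 : ∫⁻ w, (ENNReal.ofReal (dist (J z) w)) ^ (-q) * (ENNReal.ofReal (dist z w0)) ^ (-q) ∂ω' =
        PE q ω' (J z) * (ENNReal.ofReal (dist z w0)) ^ (-q) := by
      unfold PE
      rw [lintegral_mul_const' _ _ (ENNReal.rpow_ne_top_of_ne_zero (by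
        rw [Ne, ENNReal.ofReal_eq_zero, not_le]; exact hzd) ENNReal.ofReal_ne_top)]
    rw [e1, mul_comm]
    apply mul_le_mul' _ le_rfl
    have e2 : dist (J z) c1 = dist z c / (dist z w0 * dist c w0) := by
      rw [hc1, hJ, EuclideanGeometry.dist_inversion_inversion hz hc.symm, one_pow]
      field_simp
    have hJne : 0 < dist (J z) c1 := by rw [e2]; positivity
    have e3 : ‖ρ⁻¹ • (J z - c1)‖ = dist (J z) c1 / ρ := by
      rw [norm_smul, ← dist_eq_norm, Real.norm_of_nonneg (by positivity)]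
      field_simp
    have e4 : dist (J z) c1 / ρ = dist z c / (r' * dist z w0) := by
      rw [e2, hρ]
      field_simp
    have hcb := (hC n q hq hqn).2.2.2.2.2.2.1
    rw [hPE]
    rcases lt_trichotomy (dist (J z) c1 / ρ) 1 with h | h | h
    · rw [hωi _ (by rw [e3]; exact h), ← ENNReal.ofReal_one]
      exact ENNReal.ofReal_le_ofReal (hcb _ (by positivity)).2
    · exfalso
      rw [e4, div_eq_one_iff_eq (by positivity)] at h
      exact hzn h
    · rw [hωo _ (by rw [e3]; exact h)]
      apply ENNReal.ofReal_le_ofReal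
      apply Ec_mono hC hq hqn (by positivity)
      rw [e3, e4, inv_div]
      gcongr
  calc ∫⁻ z, (ENNReal.ofReal (dist z w0)) ^ (-q) * ENNReal.ofReal (Ec n q (r * dist z w0 / dist z c)) ∂ν
      ≤ ∫⁻ z, ∫⁻ w, (ENNReal.ofReal (dist (J z) w)) ^ (-q) * (ENNReal.ofReal (dist z w0)) ^ (-q) ∂ω' ∂ν :=
        lintegral_mono_ae hlow
    _ = ∫⁻ w, ∫⁻ z, (ENNReal.ofReal (dist (J z) w)) ^ (-q) * (ENNReal.ofReal (dist z w0)) ^ (-q) ∂ν ∂ω' := by
        rw [lintegral_lintegral_swap]
        apply Measurable.aemeasurable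
        fun_prop
    _ = ∫⁻ w, (ENNReal.ofReal (dist w w0)) ^ (-q) * PE q ν (J w) ∂ω' := by
        apply lintegral_congr_ae
        filter_upwards [hw0] with w hw
        have hwd : 0 < dist w w0 := dist_pos.2 hw
        unfold PE
        rw [← lintegral_const_mul' _ _ (ENNReal.rpow_ne_top_of_ne_zero (by
          rw [Ne, ENNReal.ofReal_eq_zero, not_le]; exact hwd) ENNReal.ofReal_ne_top)]
        apply lintegral_congr_ae
        filter_upwards [hatom w0] with z hz
        rw [← hmul _ _ dist_nonneg, ← hmul _ _ dist_nonneg, hJ, inv_id hz hw, dist_comm z, mul_comm]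
    _ ≤ ∫⁻ w, (ENNReal.ofReal (dist w w0)) ^ (-q) * 1 ∂ω' := by
        apply lintegral_mono
        intro w
        exact mul_le_mul' le_rfl (hν _)
    _ = PE q ω' w0 := by
        unfold PE
        apply lintegral_congr
        intro w
        rw [mul_one, dist_comm]
    _ = ENNReal.ofReal (Ec n q r') := by
        rw [hPE]
        have e3 : ‖ρ⁻¹ • (w0 - c1)‖ = 1 / r' := by
          rw [norm_smul, ← dist_eq_norm, dist_comm, hc1d, Real.norm_of_nonneg (by positivity), hρ]
          field_simp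
        rw [hωo _ (by rw [e3, lt_div_iff₀ hr0]; linarith), e3, one_div, inv_inv]

end Pool.Agent.W688.RR.T0

namespace Pool.Agent.W688.RR

open MeasureTheory Set Filter Topology
open scoped ENNReal NNReal
open Pool.Agent.Helper88.RB (E PE)
open Pool.Agent.W784.RR

theorem ptest0 (hC : PCalc) (hF : PFlat) : PTest0 := by
  intro n q hn hq hnq hqn S ν hS hνf hνS hν w0 c hc r hr
  have hCn := hC n q hq hqn
  have hcb := hCn.2.2.2.2.2.2.1
  rcases le_or_gt 1 r with h1 | h1
  · rw [hCn.2.2.2.1 r h1, ENNReal.ofReal_one]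
    refine le_trans ?_ (hν w0)
    unfold PE
    apply lintegral_mono
    intro z
    simp only
    rw [dist_comm w0 z]
    calc _ ≤ (ENNReal.ofReal (dist z w0)) ^ (-q) * 1 := by
          apply mul_le_mul' le_rfl
          rw [← ENNReal.ofReal_one]
          exact ENNReal.ofReal_le_ofReal (hcb _ (by positivity)).2
      _ = _ := mul_one _
  · by_contra hlt
    rw [not_le] at hlt
    have hcont : ContinuousAt (Ec n q) r := (hCn.2.2.2.2.1 r hr.le).continuousAt (Ici_mem_nhds hr)
    have hcont2 : ContinuousAt (fun x => ENNReal.ofReal (Ec n q x)) r :=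
      (ENNReal.continuous_ofReal.continuousAt).comp hcont
    have hev := hcont2.eventually_lt_const hlt
    rw [Metric.eventually_nhds_iff] at hev
    obtain ⟨ε, hε, hev⟩ := hev
    have hgm : Measurable (fun z : E n => dist z c / dist z w0) := by fun_prop
    have hcount := Measure.countable_meas_level_set_pos (μ := ν) hgm
    have hden := hcount.dense_compl ℝ
    obtain ⟨r', hr', hr1, hr2⟩ := hden.exists_between (show r < min (r + ε) 1 by
      rw [lt_min_iff]; exact ⟨by linarith, h1⟩)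
    rw [lt_min_iff] at hr2
    have hr0 : 0 < r' := hr.trans hr1
    have hnull : ν {z | dist z c = r' * dist z w0} = 0 := by
      have h3 : ν {z | dist z c / dist z w0 = r'} = 0 := by
        by_contra hne
        exact hr' (pos_iff_ne_zero.2 hne)
      refine measure_mono_null ?_ h3
      intro z hz
      have hz' : dist z c = r' * dist z w0 := hz
      have hz0 : dist z w0 ≠ 0 := by
        intro h0
        rw [h0, mul_zero, dist_eq_zero] at hz'
        rw [dist_eq_zero] at h0
        exact hc (h0.symm.trans hz')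
      show dist z c / dist z w0 = r'
      rw [hz']
      field_simp
    have hk := T0.key hC hF hn hq hnq hqn ν hν hc hr hr1 hr2.2 hnull
    have h4 := hev (y := r') (by
      rw [Real.dist_eq, abs_of_pos (by linarith)]
      linarith [hr2.1])
    exact absurd (lt_of_lt_of_le h4 hk) (by
      intro h
      exact lt_irrefl _ h)

end Pool.Agent.W688.RR
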