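import Pool.Agent.W784.RR.DefsA
import Mathlib.Analysis.Complex.Poisson

/-!
The uniform measure on the unit circle and its potentials with kernel `|x-y|^s`.
-/

set_option autoImplicit false

namespace Pool.Agent.W688.RR

open MeasureTheory Set Filter Topology
open scoped ENNReal NNReal
open Pool.Agent.W784.RR (cs)

/-- uniform probability on the unit circle -/
noncomputable def sg : Measure ℂ :=
  ((ENNReal.ofReal (2 * Real.pi))⁻¹ • (volume.restrict (Ioc 0 (2 * Real.pi)))).map (circleMap 0 1)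

lemma lint_sg {F : ℂ → ℝ≥0∞} (hF : Measurable F) :
    ∫⁻ z, F z ∂sg = (ENNReal.ofReal (2 * Real.pi))⁻¹ *
      ∫⁻ θ in Ioc 0 (2 * Real.pi), F (circleMap 0 1 θ) := by
  unfold sg
  rw [lintegral_map hF (by fun_prop), lintegral_smul_measure, smul_eq_mul]

instance : IsProbabilityMeasure sg := ⟨by
  have h := lint_sg (F := fun _ => 1) measurable_const
  simp only [lintegral_one, Measure.restrict_apply_univ, Real.volume_Ioc, sub_zero] at h
  rw [h, ENNReal.inv_mul_cancel]
  · rw [Ne, ENNReal.ofReal_eq_zero, not_le]; positivity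
  · exact ENNReal.ofReal_ne_top⟩

lemma lint_sg_real {F : ℂ → ℝ} (hm : Measurable F) (hF : Continuous (fun θ : ℝ => F (circleMap 0 1 θ)))
    (h0 : ∀ θ : ℝ, 0 ≤ F (circleMap 0 1 θ)) :
    ∫⁻ z, ENNReal.ofReal (F z) ∂sg = ENNReal.ofReal (Real.circleAverage F 0 1) := by
  rw [lint_sg (by fun_prop), Real.circleAverage_def, smul_eq_mul,
    ENNReal.ofReal_mul (p := (2 * Real.pi)⁻¹) (by positivity), intervalIntegral.integral_of_le (by positivity),
    ofReal_integral_eq_lintegral_ofReal, ENNReal.ofReal_inv_of_pos (by positivity)]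
  · have := hF.intervalIntegrable (μ := volume) 0 (2 * Real.pi)
    exact (intervalIntegrable_iff_integrableOn_Ioc_of_le (by positivity)).1 this
  · exact Eventually.of_forall fun θ => h0 θ

lemma sg_norm : ∀ᵐ z ∂sg, ‖z‖ = 1 := by
  unfold sg
  rw [ae_map_iff (by fun_prop) (measurableSet_eq_fun (by fun_prop) measurable_const)]
  apply Eventually.of_forall
  intro θ
  simp

lemma circ_norm (θ : ℝ) : ‖circleMap 0 1 θ‖ = 1 := by simp

/-- potentials on the circle -/
lemma V_circle {s : ℝ} (hs : 0 < s) (φ : ℝ) :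
    ∫⁻ z, ENNReal.ofReal (‖circleMap 0 1 φ - z‖ ^ s) ∂sg = ENNReal.ofReal (cs s) := by
  rw [lint_sg_real (F := fun z => ‖circleMap 0 1 φ - z‖ ^ s) (by fun_prop)
    (by
      refine Continuous.rpow_const ?_ fun _ => Or.inr hs.le
      fun_prop) (fun θ => by positivity)]
  congr 1
  unfold cs
  rw [Real.circleAverage_def, smul_eq_mul, div_eq_inv_mul]
  congr 1
  have hper : Function.Periodic (fun α : ℝ => ‖1 - Complex.exp (α * Complex.I)‖ ^ s) (2 * Real.pi) := by
    intro α
    simp only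
    congr 3
    push_cast
    rw [add_mul, Complex.exp_add]
    simp
  have h1 : ∀ θ : ℝ, ‖circleMap 0 1 φ - circleMap 0 1 θ‖ ^ s =
      (fun α : ℝ => ‖1 - Complex.exp (α * Complex.I)‖ ^ s) (θ - φ) := by
    intro θ
    simp only
    congr 1
    simp only [circleMap_zero, Complex.ofReal_one, one_mul]
    have e : Complex.exp (θ * Complex.I) = Complex.exp (φ * Complex.I) *
        Complex.exp (((θ - φ : ℝ) : ℂ) * Complex.I) := by
      rw [← Complex.exp_add]
      congr 1
      push_cast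
      ring
    rw [e, ← mul_one_sub, norm_mul, Complex.norm_exp_ofReal_mul_I, one_mul]
  simp_rw [h1]
  rw [intervalIntegral.integral_comp_sub_right (fun α : ℝ => ‖1 - Complex.exp (α * Complex.I)‖ ^ s) φ]
  have h2 := hper.intervalIntegral_add_eq (0 - φ) 0
  rw [zero_add] at h2
  rw [← h2]
  congr 1
  ring

lemma pk_nonneg {w : ℂ} (hw : ‖w‖ < 1) (θ : ℝ) : 0 ≤ poissonKernel 0 w (circleMap 0 1 θ) := by
  rw [poissonKernel_def]
  apply div_nonneg
  · rw [sub_zero, sub_zero, circ_norm]
    have := norm_nonneg w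
    nlinarith
  · positivity

lemma pk_cont {w : ℂ} (hw : ‖w‖ < 1) : Continuous (fun θ : ℝ => poissonKernel 0 w (circleMap 0 1 θ)) := by
  simp only [poissonKernel_def, sub_zero]
  apply Continuous.div (by fun_prop) (by fun_prop)
  intro θ h
  rw [sq_eq_zero_iff, norm_eq_zero, sub_eq_zero] at h
  have := circ_norm θ
  rw [h] at this
  linarith

lemma pk_meas (w : ℂ) : Measurable (poissonKernel 0 w) := by
  unfold poissonKernel
  fun_prop

lemma pk_one {w : ℂ} (hw : ‖w‖ < 1) : ∫⁻ z, ENNReal.ofReal (poissonKernel 0 w z) ∂sg = 1 := by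
  rw [lint_sg_real (pk_meas w) (pk_cont hw) (pk_nonneg hw)]
  have hf : DiffContOnCl ℂ (fun _ : ℂ => (1 : ℂ)) (Metric.ball (0:ℂ) 1) := diffContOnCl_const
  have hw' : w ∈ Metric.ball (0:ℂ) 1 := by simpa using hw
  have h := hf.circleAverage_poissonKernel_smul hw'
  rw [Real.circleAverage_def] at h
  have h2 : ∀ θ : ℝ, (poissonKernel 0 w • fun _ : ℂ => (1 : ℂ)) (circleMap 0 1 θ) =
      ((poissonKernel 0 w (circleMap 0 1 θ) : ℝ) : ℂ) := by
    intro θ
    simp
  simp_rw [h2] at h
  rw [intervalIntegral.integral_ofReal] at h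
  have h3 : Real.circleAverage (poissonKernel 0 w) 0 1 = 1 := by
    rw [Real.circleAverage_def, smul_eq_mul]
    rw [Complex.real_smul] at h
    exact_mod_cast h
  rw [h3, ENNReal.ofReal_one]

lemma pk_sub {s : ℝ} (hs : 0 < s) {w z : ℂ} (hw : ‖w‖ < 1) (hz : ‖z‖ = 1) :
    ENNReal.ofReal (‖w - z‖ ^ s) ≤
      ∫⁻ ζ, ENNReal.ofReal (poissonKernel 0 w ζ) * ENNReal.ofReal (‖ζ - z‖ ^ s) ∂sg := by
  have hw' : w ∈ Metric.ball (0:ℂ) 1 := by simpa using hw
  set f : ℂ → ℂ := fun x => (1 - x * (starRingEnd ℂ) z) ^ (s : ℂ) with hf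
  have hre : ∀ x : ℂ, ‖x‖ ≤ 1 → 0 ≤ (1 - x * (starRingEnd ℂ) z).re := by
    intro x hx
    rw [Complex.sub_re, Complex.one_re]
    have h1 := Complex.re_le_norm (x * (starRingEnd ℂ) z)
    rw [norm_mul, RCLike.norm_conj, hz, mul_one] at h1
    linarith
  have hre' : ∀ x : ℂ, ‖x‖ < 1 → 0 < (1 - x * (starRingEnd ℂ) z).re := by
    intro x hx
    rw [Complex.sub_re, Complex.one_re]
    have h1 := Complex.re_le_norm (x * (starRingEnd ℂ) z)
    rw [norm_mul, RCLike.norm_conj, hz, mul_one] at h1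
    linarith
  have hcont : ∀ x : ℂ, ‖x‖ ≤ 1 → ContinuousAt f x := by
    intro x hx
    have h1 := Complex.continuousAt_cpow_of_re_pos (p := (1 - x * (starRingEnd ℂ) z, (s : ℂ)))
      (Or.inl (hre x hx)) (by simpa using hs)
    have h2 : ContinuousAt (fun x : ℂ => ((1 - x * (starRingEnd ℂ) z, (s : ℂ)) : ℂ × ℂ)) x := by
      fun_prop
    exact ContinuousAt.comp (f := fun x : ℂ => ((1 - x * (starRingEnd ℂ) z, (s : ℂ)) : ℂ × ℂ))
      (g := fun p : ℂ × ℂ => p.1 ^ p.2) h1 h2
  have hfd : DiffContOnCl ℂ f (Metric.ball (0:ℂ) 1) := by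
    constructor
    · intro x hx
      apply DifferentiableAt.differentiableWithinAt
      have hx' : ‖x‖ < 1 := by simpa using hx
      apply DifferentiableAt.cpow_const (by fun_prop)
      left
      exact hre' x hx'
    · rw [closure_ball (0:ℂ) one_ne_zero]
      intro x hx
      have hx' : ‖x‖ ≤ 1 := by simpa using hx
      exact (hcont x hx').continuousWithinAt
  have hnorm : ∀ x : ℂ, ‖f x‖ = ‖x - z‖ ^ s := by
    intro x
    rw [hf]
    simp only
    rw [Complex.norm_cpow_real]
    congr 1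
    have h1 : z * (starRingEnd ℂ) z = 1 := by
      rw [Complex.mul_conj, Complex.normSq_eq_norm_sq, hz]; simp
    have h2 : 1 - x * (starRingEnd ℂ) z = (z - x) * (starRingEnd ℂ) z := by
      rw [sub_mul, h1]
    rw [h2, norm_mul, RCLike.norm_conj, hz, mul_one, norm_sub_rev]
  have hfc : Continuous (fun θ : ℝ => f (circleMap 0 1 θ)) := by
    rw [continuous_iff_continuousAt]
    intro θ
    exact ContinuousAt.comp (hcont _ (circ_norm θ).le) (by fun_prop)
  have h := hfd.circleAverage_poissonKernel_smul hw'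
  rw [← hnorm, ← h]
  have hm : Measurable (fun ζ : ℂ => poissonKernel 0 w ζ * ‖ζ - z‖ ^ s) := (pk_meas w).mul (by fun_prop)
  have hint : ∫⁻ ζ, ENNReal.ofReal (poissonKernel 0 w ζ) * ENNReal.ofReal (‖ζ - z‖ ^ s) ∂sg =
      ∫⁻ ζ, ENNReal.ofReal (poissonKernel 0 w ζ * ‖ζ - z‖ ^ s) ∂sg := by
    apply lintegral_congr
    intro ζ
    rw [ENNReal.ofReal_mul' (by positivity)]
  rw [hint, lint_sg_real hm (by
    apply (pk_cont hw).mul
    refine Continuous.rpow_const ?_ fun _ => Or.inr hs.le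
    fun_prop) (fun θ => mul_nonneg (pk_nonneg hw θ) (by positivity))]
  apply ENNReal.ofReal_le_ofReal
  rw [Real.circleAverage_def, Real.circleAverage_def, norm_smul, smul_eq_mul, Real.norm_of_nonneg (by positivity)]
  gcongr
  refine (intervalIntegral.norm_integral_le_integral_norm (by positivity)).trans (le_of_eq ?_)
  apply intervalIntegral.integral_congr
  intro θ _
  simp only
  rw [Pi.smul_apply', norm_smul, hnorm, Real.norm_of_nonneg (pk_nonneg hw θ)]

/-- potentials in the disc -/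
lemma V_disc {s : ℝ} (hs : 0 < s) {w : ℂ} (hw : ‖w‖ ≤ 1) :
    ∫⁻ z, ENNReal.ofReal (‖w - z‖ ^ s) ∂sg ≤ ENNReal.ofReal (cs s) := by
  rcases hw.eq_or_lt with h | h
  · have : w = circleMap 0 1 (Complex.arg w) := by
      rw [circleMap_zero]
      have := Complex.norm_mul_exp_arg_mul_I w
      rw [h] at this
      exact this.symm
    rw [this]
    exact (V_circle hs _).le
  · calc ∫⁻ z, ENNReal.ofReal (‖w - z‖ ^ s) ∂sg
        ≤ ∫⁻ z, ∫⁻ ζ, ENNReal.ofReal (poissonKernel 0 w ζ) * ENNReal.ofReal (‖ζ - z‖ ^ s) ∂sg ∂sg := by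
          apply lintegral_mono_ae
          filter_upwards [sg_norm] with z hz
          exact pk_sub hs h hz
      _ = ∫⁻ ζ, ∫⁻ z, ENNReal.ofReal (poissonKernel 0 w ζ) * ENNReal.ofReal (‖ζ - z‖ ^ s) ∂sg ∂sg := by
          rw [lintegral_lintegral_swap]
          apply Measurable.aemeasurable
          apply Measurable.fun_mul
          · exact ((pk_meas w).comp measurable_snd).ennreal_ofReal
          · fun_prop
      _ = ∫⁻ ζ, ENNReal.ofReal (poissonKernel 0 w ζ) * ENNReal.ofReal (cs s) ∂sg := by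
          apply lintegral_congr_ae
          filter_upwards [sg_norm] with ζ hζ
          rw [lintegral_const_mul _ (by fun_prop)]
          congr 1
          have : ζ = circleMap 0 1 (Complex.arg ζ) := by
            rw [circleMap_zero]
            have := Complex.norm_mul_exp_arg_mul_I ζ
            rw [hζ] at this
            exact this.symm
          rw [this]
          exact V_circle hs _
      _ = ENNReal.ofReal (cs s) := by
          rw [lintegral_mul_const _ (pk_meas w).ennreal_ofReal, pk_one h, one_mul]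

/-- energy of the circle -/
lemma E_sg {s : ℝ} (hs : 0 < s) :
    ∫⁻ w, ∫⁻ z, ENNReal.ofReal (‖w - z‖ ^ s) ∂sg ∂sg = ENNReal.ofReal (cs s) := by
  have : ∀ᵐ w ∂sg, ∫⁻ z, ENNReal.ofReal (‖w - z‖ ^ s) ∂sg = ENNReal.ofReal (cs s) := by
    filter_upwards [sg_norm] with w hw
    have : w = circleMap 0 1 (Complex.arg w) := by
      rw [circleMap_zero]
      have := Complex.norm_mul_exp_arg_mul_I w
      rw [hw] at this
      exact this.symm
    rw [this]
    exact V_circle hs _
  rw [lintegral_congr_ae this]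
  simp

/-- lower bounds for `cs` -/
lemma cs_lower {t : ℝ} (h0 : 0 ≤ t) (h2 : t < 2) : ∃ c : ℝ, 0 < c ∧ ∀ s : ℝ, 0 < s → c * t ^ s ≤ cs s := by
  have hg : Continuous (fun α : ℝ => ‖1 - Complex.exp (α * Complex.I)‖) := by fun_prop
  have hpi : ‖1 - Complex.exp (Real.pi * Complex.I)‖ = 2 := by
    rw [Complex.exp_pi_mul_I]; norm_num
  have hev : ∀ᶠ α : ℝ in 𝓝 Real.pi, t < ‖1 - Complex.exp (α * Complex.I)‖ := by
    apply hg.continuousAt.eventually_const_lt
    refine lt_of_lt_of_eq h2 ?_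
    exact hpi.symm
  rw [Metric.eventually_nhds_iff] at hev
  obtain ⟨ε, hε, hεt⟩ := hev
  set δ : ℝ := min (ε / 2) 1 with hδ
  have hδ0 : 0 < δ := by positivity
  have hδ1 : δ ≤ 1 := min_le_right _ _
  have hδε : δ ≤ ε / 2 := min_le_left _ _
  have hpi3 := Real.pi_gt_three
  refine ⟨2 * δ / (2 * Real.pi), by positivity, fun s hs => ?_⟩
  unfold cs
  rw [div_mul_eq_mul_div]
  gcongr
  have hc : Continuous (fun α : ℝ => ‖1 - Complex.exp (α * Complex.I)‖ ^ s) :=
    Continuous.rpow_const hg fun _ => Or.inr hs.le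
  calc 2 * δ * t ^ s = ∫ _α in (Real.pi - δ)..(Real.pi + δ), t ^ s := by
        rw [intervalIntegral.integral_const, smul_eq_mul]; ring
    _ ≤ ∫ α in (Real.pi - δ)..(Real.pi + δ), ‖1 - Complex.exp (α * Complex.I)‖ ^ s := by
        apply intervalIntegral.integral_mono_on (by linarith) (by simp) (hc.intervalIntegrable _ _)
        intro α hα
        apply Real.rpow_le_rpow h0 _ hs.le
        apply (hεt _).le
        rw [Real.dist_eq, abs_lt]
        constructor <;> linarith [hα.1, hα.2]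
    _ ≤ ∫ α in (0:ℝ)..(2 * Real.pi), ‖1 - Complex.exp (α * Complex.I)‖ ^ s := by
        apply intervalIntegral.integral_mono_interval (by linarith) (by linarith) (by linarith)
        · exact Eventually.of_forall fun α => by simp only [Pi.zero_apply]; positivity
        · exact hc.intervalIntegrable _ _

lemma cs_pos {s : ℝ} (hs : 0 < s) : 0 < cs s := by
  obtain ⟨c, hc, h⟩ := cs_lower (t := 1) (by norm_num) (by norm_num)
  have := h s hs
  rw [Real.one_rpow, mul_one] at this
  linarith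

lemma cs_root {t : ℝ} (ht : t < 2) : ∃ s : ℝ, 0 < s ∧ t < (cs s) ^ (1 / s) := by
  obtain ⟨t', h1, h2⟩ := exists_between (max_lt ht (by norm_num : (0:ℝ) < 2))
  have ht' : 0 < t' := (le_max_right _ _).trans_lt h1
  have htt : t < t' := (le_max_left _ _).trans_lt h1
  obtain ⟨c, hc, h⟩ := cs_lower ht'.le h2
  have hlim : Tendsto (fun s : ℝ => c ^ (1 / s) * t') atTop (𝓝 (c ^ (0:ℝ) * t')) := by
    apply Tendsto.mul_const
    apply Tendsto.rpow tendsto_const_nhds
    · exact (tendsto_const_nhds.div_atTop tendsto_id : Tendsto (fun s : ℝ => 1 / s) atTop (𝓝 0))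
    · left; exact hc.ne'
  rw [Real.rpow_zero, one_mul] at hlim
  have hev := (hlim.eventually_const_lt htt).and (eventually_gt_atTop 0)
  obtain ⟨s, hs1, hs0⟩ := hev.exists
  refine ⟨s, hs0, hs1.trans_le ?_⟩
  calc c ^ (1 / s) * t' = (c * t' ^ s) ^ (1 / s) := by
        rw [Real.mul_rpow hc.le (by positivity), ← Real.rpow_mul ht'.le, mul_one_div_cancel hs0.ne', Real.rpow_one]
    _ ≤ (cs s) ^ (1 / s) := by
        apply Real.rpow_le_rpow (by positivity) (h s hs0) (by positivity)

lemma cs_two : cs 2 = 2 := by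
  unfold cs
  have h1 : ∀ α : ℝ, ‖1 - Complex.exp (α * Complex.I)‖ ^ (2:ℝ) = 2 - 2 * Real.cos α := by
    intro α
    rw [Real.rpow_two, ← Complex.normSq_eq_norm_sq, Complex.normSq_apply]
    simp only [Complex.sub_re, Complex.one_re, Complex.sub_im, Complex.one_im,
      Complex.exp_ofReal_mul_I_re, Complex.exp_ofReal_mul_I_im]
    nlinarith [Real.sin_sq_add_cos_sq α]
  simp_rw [h1]
  rw [intervalIntegral.integral_sub (by simp) (Continuous.intervalIntegrable (by fun_prop) _ _)]
  simp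

end Pool.Agent.W688.RR
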